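import Mathlib

/-!
Values of Chebyshev polynomials of the first kind at integers: size, divisibility, Pell equations.
-/

set_option autoImplicit false

namespace Pool.Agent.W5h37.Cohn

open Polynomial

/-- the value `T_n(t)` of the Chebyshev polynomial of the first kind -/
noncomputable def Ch (t : ℤ) (n : ℕ) : ℤ := (Chebyshev.T ℤ n).eval t

theorem Ch_zero (t : ℤ) : Ch t 0 = 1 := by simp [Ch]

theorem Ch_one (t : ℤ) : Ch t 1 = t := by simp [Ch]

theorem Ch_add_two (t : ℤ) (n : ℕ) : Ch t (n + 2) = 2 * t * Ch t (n + 1) - Ch t n := by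
  unfold Ch
  have h := Chebyshev.T_add_two ℤ (n : ℤ)
  have e1 : ((n + 2 : ℕ) : ℤ) = (n : ℤ) + 2 := by push_cast; ring
  have e2 : ((n + 1 : ℕ) : ℤ) = (n : ℤ) + 1 := by push_cast; ring
  rw [e1, e2, h]
  simp

theorem Ch_mul (t : ℤ) (m n : ℕ) : Ch t (m * n) = Ch (Ch t n) m := by
  unfold Ch
  have h := Chebyshev.T_mul ℤ (m : ℤ) (n : ℤ)
  have e1 : ((m * n : ℕ) : ℤ) = (m : ℤ) * n := by push_cast; ring
  rw [e1, h, eval_comp]

theorem Ch_two (t : ℤ) : Ch t 2 = 2 * t ^ 2 - 1 := by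
  have := Ch_add_two t 0
  simp only [zero_add, Ch_zero, Ch_one] at this
  rw [this]; ring

/-- size -/
theorem Ch_size {t : ℤ} (ht : 1 ≤ t) (n : ℕ) : 1 ≤ Ch t n ∧ t * Ch t n ≤ Ch t (n + 1) ∧
    Ch t (n + 1) ≤ 2 * t * Ch t n := by
  induction n with
  | zero =>
    rw [Ch_zero, zero_add, Ch_one]
    exact ⟨le_rfl, by linarith, by linarith⟩
  | succ n ih =>
    obtain ⟨h1, h2, h3⟩ := ih
    rw [Ch_add_two]
    have h4 : Ch t n ≤ Ch t (n + 1) := by nlinarith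
    have h5 : 1 ≤ Ch t (n + 1) := by linarith
    refine ⟨h5, ?_, by linarith⟩
    nlinarith

theorem Ch_pos {t : ℤ} (ht : 1 ≤ t) (n : ℕ) : 1 ≤ Ch t n := (Ch_size ht n).1

theorem le_Ch {t : ℤ} (ht : 1 ≤ t) (n : ℕ) : t ^ n ≤ Ch t n := by
  induction n with
  | zero => rw [Ch_zero]; simp
  | succ n ih =>
    have := (Ch_size ht n).2.1
    calc t ^ (n + 1) = t * t ^ n := by ring
      _ ≤ t * Ch t n := mul_le_mul_of_nonneg_left ih (by linarith)
      _ ≤ _ := this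

theorem Ch_le {t : ℤ} (ht : 1 ≤ t) (n : ℕ) : Ch t n ≤ (2 * t) ^ n := by
  induction n with
  | zero => rw [Ch_zero]; simp
  | succ n ih =>
    have := (Ch_size ht n).2.2
    calc Ch t (n + 1) ≤ 2 * t * Ch t n := this
      _ ≤ 2 * t * (2 * t) ^ n := mul_le_mul_of_nonneg_left ih (by linarith)
      _ = _ := by ring

theorem Ch_lt_succ {t : ℤ} (ht : 2 ≤ t) (n : ℕ) : Ch t n < Ch t (n + 1) := by
  have := Ch_size (show 1 ≤ t by linarith) n
  nlinarith [this.1, this.2.1]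

theorem Ch_strictMono {t : ℤ} (ht : 2 ≤ t) : StrictMono (Ch t) :=
  strictMono_nat_of_lt_succ (Ch_lt_succ ht)

/-- congruences -/
theorem Ch_modEq (t : ℤ) (m : ℕ) : t ^ 2 ∣ Ch t (2 * m) - (-1) ^ m ∧
    t ^ 3 ∣ Ch t (2 * m + 1) - (-1) ^ m * (2 * m + 1) * t := by
  induction m with
  | zero =>
    refine ⟨?_, ?_⟩
    · rw [mul_zero, Ch_zero]; simp
    · rw [mul_zero, zero_add, Ch_one]; simp
  | succ m ih =>
    obtain ⟨⟨u, hu⟩, ⟨w, hw⟩⟩ := ih
    have e1 : Ch t (2 * (m + 1)) = 2 * t * Ch t (2 * m + 1) - Ch t (2 * m) := Ch_add_two t (2 * m)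
    have e2 : Ch t (2 * (m + 1) + 1) = 2 * t * Ch t (2 * (m + 1)) - Ch t (2 * m + 1) :=
      Ch_add_two t (2 * m + 1)
    have hu' : Ch t (2 * m) = (-1) ^ m + t ^ 2 * u := by linarith
    have hw' : Ch t (2 * m + 1) = (-1) ^ m * (2 * m + 1) * t + t ^ 3 * w := by linarith
    have e3 : Ch t (2 * (m + 1)) = (-1) ^ (m + 1) + t ^ 2 *
        (2 * ((-1) ^ m * (2 * m + 1)) + 2 * t ^ 2 * w - u) := by
      rw [e1, hu', hw']; ring
    refine ⟨?_, ?_⟩
    · exact ⟨2 * ((-1) ^ m * (2 * m + 1)) + 2 * t ^ 2 * w - u, by rw [e3]; ring⟩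
    · refine ⟨2 * (2 * ((-1) ^ m * (2 * m + 1)) + 2 * t ^ 2 * w - u) - w, ?_⟩
      rw [e2, e3, hw']
      push_cast
      ring

/-- for odd `q`, `T_q(x) = x V` with `V ≡ ± q (mod x ^ 2)` -/
theorem Ch_odd (x : ℤ) {q : ℕ} (hq : Odd q) : ∃ V w e : ℤ, (e = 1 ∨ e = -1) ∧
    Ch x q = x * V ∧ V = e * q + x ^ 2 * w := by
  obtain ⟨m, rfl⟩ := hq
  obtain ⟨w, hw⟩ := (Ch_modEq x m).2
  refine ⟨(-1) ^ m * (2 * m + 1) + x ^ 2 * w, w, (-1) ^ m, neg_one_pow_eq_or ℤ m, ?_, ?_⟩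
  · have : Ch x (2 * m + 1) = (-1) ^ m * (2 * m + 1) * x + x ^ 3 * w := by linarith
    rw [this]; ring
  · push_cast; ring

/-- For odd `i`: `T_i(t) = (t v) W`, `v ∣ i`, `W` prime to `t v`. -/
theorem Ch_factor (t : ℤ) (i : ℕ) (hi : Odd i) : ∃ (v K : ℕ) (W : ℤ), v ∣ i ∧
    Ch t i = t * v * W ∧ IsCoprime W t ∧ (v : ℤ) ∣ t ^ K := by
  induction i using induction_on_primes with
  | zero => exact absurd hi (by decide)
  | one => exact ⟨1, 0, 1, dvd_rfl, by rw [Ch_one]; simp, isCoprime_one_left, by simp⟩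
  | prime_mul q m hq ih =>
    have hqo : Odd q := (Nat.odd_mul.1 hi).1
    have hmo : Odd m := (Nat.odd_mul.1 hi).2
    obtain ⟨v, K, W, hv, h1, h2, h3⟩ := ih hmo
    obtain ⟨V, w, e, he, g1, g2⟩ := Ch_odd (Ch t m) hqo
    by_cases hqt : (q : ℤ) ∣ t
    · obtain ⟨c, hc⟩ := hqt
      refine ⟨q * v, K + 1, W * (e + (Ch t m) * (c * v * W) * w), mul_dvd_mul_left q hv, ?_, ?_, ?_⟩
      · rw [Ch_mul, g1, g2]
        have : Ch t m ^ 2 = q * (Ch t m * (c * v * W)) := by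
          rw [sq]
          nth_rewrite 2 [h1]
          rw [hc]; ring
        rw [this]
        nth_rewrite 1 [h1]
        push_cast
        ring
      · apply IsCoprime.mul_left h2
        rw [h1]
        rcases he with rfl | rfl
        · exact ⟨1, -(v * W * (c * v * W) * w), by ring⟩
        · exact ⟨-1, (v * W * (c * v * W) * w), by ring⟩
      · rw [pow_succ, mul_comm (t ^ K) t]
        push_cast
        exact mul_dvd_mul ⟨c, hc⟩ h3
    · have h4 : IsCoprime (q : ℤ) t := by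
        rw [Prime.coprime_iff_not_dvd (Nat.prime_iff_prime_int.1 hq)]
        exact hqt
      have h5 : IsCoprime V t := by
        obtain ⟨a, b, hab⟩ := h4
        rw [g2, h1]
        rcases he with rfl | rfl
        · exact ⟨a, b - a * t * (v * W) ^ 2 * w, by linear_combination hab⟩
        · exact ⟨-a, b + a * t * (v * W) ^ 2 * w, by linear_combination hab⟩
      refine ⟨v, K, W * V, hv.mul_left q, ?_, h2.mul_left h5, h3⟩
      rw [Ch_mul, g1]
      nth_rewrite 1 [h1]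
      ring

/-- For odd `i` and `T_i(t) = a ^ k`: `t v = s ^ k` with `v ∣ i`, `s ∣ a`. -/
theorem structure_odd {t a k i : ℕ} (ht : 1 ≤ t) (hi : Odd i) (hk : 1 ≤ k)
    (h : (a : ℤ) ^ k = Ch t i) : ∃ v s : ℕ, v ∣ i ∧ s ∣ a ∧ t * v = s ^ k := by
  obtain ⟨v, K, W, hv, h1, h2, h3⟩ := Ch_factor t i hi
  have hpos : 1 ≤ Ch t i := Ch_pos (by exact_mod_cast ht) i
  have hvpos : 0 < v := Nat.pos_of_dvd_of_pos hv hi.pos
  have htv : (0 : ℤ) < t * v := by positivity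
  have hW : 0 < W := by
    by_contra hneg
    push Not at hneg
    nlinarith
  obtain ⟨w, rfl⟩ : ∃ w : ℕ, W = w := ⟨W.toNat, by omega⟩
  have h4 : (t * v) * w = a ^ k := by
    have : ((t * v * w : ℕ) : ℤ) = (a ^ k : ℕ) := by push_cast; rw [h, h1]
    exact_mod_cast this
  have h5 : IsCoprime (w : ℤ) ((t * v : ℕ) : ℤ) := by
    push_cast
    exact h2.mul_right (IsCoprime.of_isCoprime_of_dvd_right (h2.pow_right (n := K)) h3)
  have h6 : Nat.Coprime w (t * v) := Nat.isCoprime_iff_coprime.1 h5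
  obtain ⟨s, hs⟩ := exists_eq_pow_of_mul_eq_pow (a := t * v) (b := w) (by
    rw [Nat.isUnit_iff, gcd_eq_nat_gcd]
    exact h6.symm) h4
  refine ⟨v, s, hv, ?_, hs⟩
  have h7 : s ^ k ∣ a ^ k := by rw [← hs, ← h4]; exact dvd_mul_right _ _
  exact (Nat.pow_dvd_pow_iff (by omega)).1 h7

end Pool.Agent.W5h37.Cohn
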