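import Mathlib
import Pool.Agent.W5h37.Cohn.Cheb

/-!
Counting the bases `a ≤ N` of powers `a ^ k = T_i(t)`, where `t v = s ^ k`, `v ≤ i`.
-/

set_option autoImplicit false

namespace Pool.Agent.W5h37.Cohn

open Finset

/-- the data: `a ^ k = T_i(t)`, `t v = s ^ k`, `v ≤ i` -/
structure Dat (a k i t v s : ℕ) : Prop where
  hk : 1 ≤ k
  hi : 1 ≤ i
  ht : 2 ≤ t
  hv : 1 ≤ v
  hvi : v ≤ i
  hs : t * v = s ^ k
  h : (a : ℤ) ^ k = Ch t i

theorem sq_le_two_pow (n : ℕ) : n ^ 2 ≤ 2 ^ (n + 1) := by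
  rcases Nat.lt_or_ge n 3 with h | h
  · interval_cases n <;> norm_num
  · induction n, h using Nat.le_induction with
    | base => norm_num
    | succ n hn ih =>
      rw [pow_succ 2 (n + 1)]
      nlinarith

namespace Dat

variable {a k i t v s : ℕ} (D : Dat a k i t v s)
include D

theorem low : t ^ i ≤ a ^ k := by
  have h1 := le_Ch (t := t) (by exact_mod_cast (le_trans (by norm_num) D.ht : 1 ≤ t)) i
  rw [← D.h] at h1
  exact_mod_cast h1

theorem upp : a ^ k ≤ (2 * t) ^ i := by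
  have h1 := Ch_le (t := t) (by exact_mod_cast (le_trans (by norm_num) D.ht : 1 ≤ t)) i
  rw [← D.h] at h1
  exact_mod_cast h1

theorem s2 : 2 ≤ s := by
  by_contra hneg
  have h1 : s ≤ 1 := by omega
  have h2 : s ^ k ≤ 1 := by
    calc s ^ k ≤ 1 ^ k := Nat.pow_le_pow_left h1 k
      _ = 1 := one_pow k
  rw [← D.hs] at h2
  have := D.ht
  have := D.hv
  nlinarith

/-- `s ^ (i k) ≤ i ^ i a ^ k` -/
theorem slow : (s ^ i) ^ k ≤ i ^ i * a ^ k := by
  have h1 : (s ^ i) ^ k = (t * v) ^ i := by rw [D.hs, ← pow_mul, ← pow_mul, mul_comm]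
  rw [h1, mul_pow, mul_comm]
  exact Nat.mul_le_mul (Nat.pow_le_pow_left D.hvi i) D.low

/-- `a ^ k ≤ 2 ^ i s ^ (i k)` -/
theorem supp : a ^ k ≤ 2 ^ i * (s ^ i) ^ k := by
  have h1 : t ≤ s ^ k := by
    rw [← D.hs]; exact Nat.le_mul_of_pos_right _ D.hv
  calc a ^ k ≤ (2 * t) ^ i := D.upp
    _ ≤ (2 * s ^ k) ^ i := Nat.pow_le_pow_left (Nat.mul_le_mul_left 2 h1) i
    _ = 2 ^ i * (s ^ i) ^ k := by rw [mul_pow, ← pow_mul, ← pow_mul, mul_comm k i]

theorem index_lt {N : ℕ} (ha : a ≤ N) : i < 16 * (Nat.log 2 N + 1) ^ 2 := by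
  obtain ⟨l, hl⟩ : ∃ l, l = Nat.log 2 N + 1 := ⟨_, rfl⟩
  rw [← hl]
  have hl1 : 1 ≤ l := by omega
  have hal : a < 2 ^ l := lt_of_le_of_lt ha (by rw [hl]; exact Nat.lt_pow_succ_log_self (by norm_num) N)
  have hk := D.hk
  have hi := D.hi
  have hak : a ^ k < 2 ^ (l * k) := by
    rw [pow_mul]; exact Nat.pow_lt_pow_left hal (by omega)
  obtain ⟨m, hm⟩ : ∃ m, m = Nat.log 2 i + 1 := ⟨_, rfl⟩
  have him : i < 2 ^ m := by rw [hm]; exact Nat.lt_pow_succ_log_self (by norm_num) i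
  have hmi : 2 ^ (m - 1) ≤ i := by
    rw [hm]; exact Nat.pow_log_le_self 2 (by omega)
  have h1 : 2 ^ (k * i) < 2 ^ (m * i + l * k) := by
    calc 2 ^ (k * i) ≤ s ^ (k * i) := Nat.pow_le_pow_left D.s2 _
      _ = (s ^ i) ^ k := by rw [← pow_mul, mul_comm]
      _ ≤ i ^ i * a ^ k := D.slow
      _ < (2 ^ m) ^ i * 2 ^ (l * k) :=
          Nat.mul_lt_mul_of_le_of_lt (Nat.pow_le_pow_left him.le i) hak (by positivity)
      _ = 2 ^ (m * i + l * k) := by rw [pow_add, pow_mul 2 m i]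
  have h2 : k * i < m * i + l * k := (Nat.pow_lt_pow_iff_right (by norm_num)).1 h1
  rcases Nat.lt_or_ge k (2 * m) with h3 | h3
  · -- `k < 2 m`
    have h4 : 2 ^ i < 2 ^ (l * k) := by
      calc 2 ^ i ≤ t ^ i := Nat.pow_le_pow_left D.ht i
        _ ≤ a ^ k := D.low
        _ < _ := hak
    have h5 : i < l * k := (Nat.pow_lt_pow_iff_right (by norm_num)).1 h4
    have h6 : m ^ 2 ≤ 4 * i := by
      calc m ^ 2 ≤ 2 ^ (m + 1) := sq_le_two_pow m
        _ = 4 * 2 ^ (m - 1) := by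
            rw [show m + 1 = (m - 1) + 2 by omega, pow_add]; ring
        _ ≤ 4 * i := Nat.mul_le_mul_left 4 hmi
    have h7 : i ≤ l * (2 * m) := h5.le.trans (Nat.mul_le_mul_left l h3.le)
    have h8 : i < l * (2 * m) := lt_of_lt_of_le h5 (Nat.mul_le_mul_left l h3.le)
    have h9 : i * i < (l * (2 * m)) * (l * (2 * m)) := Nat.mul_self_lt_mul_self h8
    have h10 : (l * (2 * m)) * (l * (2 * m)) = 4 * l ^ 2 * m ^ 2 := by ring
    have h11 : 4 * l ^ 2 * m ^ 2 ≤ (16 * l ^ 2) * i := by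
      calc 4 * l ^ 2 * m ^ 2 ≤ 4 * l ^ 2 * (4 * i) := Nat.mul_le_mul_left _ h6
        _ = _ := by ring
    have h12 : i * i < (16 * l ^ 2) * i := by
      rw [h10] at h9; exact lt_of_lt_of_le h9 h11
    exact Nat.lt_of_mul_lt_mul_right h12
  · have h4 : k * i < 2 * l * k := by nlinarith
    have h5 : i < 2 * l := by
      rw [mul_comm k i] at h4
      exact Nat.lt_of_mul_lt_mul_right h4
    nlinarith

/-- the window -/
theorem window {I R : ℕ} (hI : i < I) (hR : 0 < R) (hkR : R < k) :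
    (a : ℝ) ≤ (s : ℝ) ^ i * Real.exp ((I : ℝ) ^ 2 / R) ∧
    (s : ℝ) ^ i ≤ a * Real.exp ((I : ℝ) ^ 2 / R) := by
  have hk0 : k ≠ 0 := by have := D.hk; omega
  have hRR : (0 : ℝ) < R := by exact_mod_cast hR
  have hkR' : (R : ℝ) ≤ k := by exact_mod_cast hkR.le
  have hIR : (i : ℝ) ≤ I := by exact_mod_cast hI.le
  have hi1 : (1 : ℝ) ≤ i := by exact_mod_cast D.hi
  have hI1 : (1 : ℝ) ≤ I := hi1.trans hIR
  have h0 : (I : ℝ) ^ 2 ≤ k * ((I : ℝ) ^ 2 / R) := by
    rw [mul_div_assoc', le_div_iff₀ hRR, mul_comm]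
    exact mul_le_mul_of_nonneg_right hkR' (by positivity)
  have hE : Real.exp ((I : ℝ) ^ 2 / R) ^ k = Real.exp (k * ((I : ℝ) ^ 2 / R)) := by
    rw [← Real.exp_nat_mul]
  have h1 : (2 : ℝ) ^ i ≤ Real.exp ((I : ℝ) ^ 2 / R) ^ k := by
    rw [hE]
    calc (2 : ℝ) ^ i ≤ Real.exp 1 ^ i := by
          apply pow_le_pow_left₀ (by norm_num)
          have := Real.exp_one_gt_d9
          linarith
      _ = Real.exp i := by rw [← Real.exp_nat_mul, mul_one]
      _ ≤ _ := by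
          rw [Real.exp_le_exp]
          refine le_trans ?_ h0
          nlinarith
  have h2 : (i : ℝ) ^ i ≤ Real.exp ((I : ℝ) ^ 2 / R) ^ k := by
    rw [hE]
    calc (i : ℝ) ^ i ≤ Real.exp i ^ i := by
          apply pow_le_pow_left₀ (by positivity)
          have := Real.add_one_le_exp (i : ℝ)
          linarith
      _ = Real.exp (i * i) := by rw [← Real.exp_nat_mul]
      _ ≤ _ := by
          rw [Real.exp_le_exp]
          refine le_trans ?_ h0
          nlinarith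
  constructor
  · apply le_of_pow_le_pow_left₀ hk0 (by positivity)
    have h3 : ((a ^ k : ℕ) : ℝ) ≤ ((2 ^ i * (s ^ i) ^ k : ℕ) : ℝ) := by exact_mod_cast D.supp
    push_cast at h3
    rw [mul_pow]
    calc (a : ℝ) ^ k ≤ 2 ^ i * ((s : ℝ) ^ i) ^ k := h3
      _ ≤ Real.exp ((I : ℝ) ^ 2 / R) ^ k * ((s : ℝ) ^ i) ^ k :=
          mul_le_mul_of_nonneg_right h1 (by positivity)
      _ = _ := mul_comm _ _
  · apply le_of_pow_le_pow_left₀ hk0 (by positivity)
    have h3 : (((s ^ i) ^ k : ℕ) : ℝ) ≤ ((i ^ i * a ^ k : ℕ) : ℝ) := by exact_mod_cast D.slow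
    push_cast at h3
    rw [mul_pow]
    calc ((s : ℝ) ^ i) ^ k ≤ (i : ℝ) ^ i * (a : ℝ) ^ k := h3
      _ ≤ Real.exp ((I : ℝ) ^ 2 / R) ^ k * (a : ℝ) ^ k :=
          mul_le_mul_of_nonneg_right h2 (by positivity)
      _ = _ := mul_comm _ _

/-- for `i ≥ 3`, `s` is small -/
theorem s_cube {N I : ℕ} (ha : a ≤ N) (hN : 1 ≤ N) (hi3 : 3 ≤ i) (hI : i < I) :
    (s : ℝ) ≤ I * (N : ℝ) ^ (1 / 3 : ℝ) := by
  have hk := D.hk
  have hi0 : (0 : ℝ) < i := by exact_mod_cast (by omega : 0 < i)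
  have hNR : (1 : ℝ) ≤ N := by exact_mod_cast hN
  have hN3 : (1 : ℝ) ≤ (N : ℝ) ^ (1 / 3 : ℝ) := Real.one_le_rpow hNR (by norm_num)
  have hIR : (i : ℝ) ≤ I := by exact_mod_cast hI.le
  have h1 : (s ^ i) ^ k ≤ (i ^ i * a) ^ k := by
    rw [mul_pow]
    refine D.slow.trans (Nat.mul_le_mul_right _ ?_)
    exact Nat.le_self_pow (by omega) _
  have h2 : s ^ i ≤ i ^ i * a := (Nat.pow_le_pow_iff_left (by omega)).1 h1
  have h3 : (s : ℝ) ^ i ≤ (i : ℝ) ^ i * N := by
    calc (s : ℝ) ^ i ≤ (i : ℝ) ^ i * a := by exact_mod_cast h2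
      _ ≤ _ := mul_le_mul_of_nonneg_left (by exact_mod_cast ha) (by positivity)
  have h4 : ((s : ℝ) / i) ^ i ≤ N := by
    rw [div_pow, div_le_iff₀ (by positivity), mul_comm]
    exact h3
  rcases le_total ((s : ℝ) / i) 1 with h5 | h5
  · rw [div_le_one hi0] at h5
    calc (s : ℝ) ≤ I * 1 := by linarith
      _ ≤ _ := mul_le_mul_of_nonneg_left hN3 (by positivity)
  · have h6 : ((s : ℝ) / i) ^ 3 ≤ N := (pow_le_pow_right₀ h5 hi3).trans h4
    have h7 : (s : ℝ) / i ≤ (N : ℝ) ^ (1 / 3 : ℝ) := by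
      have h8 : (((s : ℝ) / i) ^ 3) ^ (1 / 3 : ℝ) ≤ (N : ℝ) ^ (1 / 3 : ℝ) :=
        Real.rpow_le_rpow (by positivity) h6 (by norm_num)
      rwa [← Real.rpow_natCast, ← Real.rpow_mul (by positivity), show ((3 : ℕ) : ℝ) * (1 / 3) = 1 by norm_num,
        Real.rpow_one] at h8
    rw [div_le_iff₀ hi0] at h7
    calc (s : ℝ) ≤ (N : ℝ) ^ (1 / 3 : ℝ) * i := h7
      _ ≤ (N : ℝ) ^ (1 / 3 : ℝ) * I := mul_le_mul_of_nonneg_left hIR (by positivity)
      _ = _ := mul_comm _ _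

end Dat

/-- `a` is determined by the rest -/
theorem Dat.inj {a a' k i t t' v s : ℕ} (D : Dat a k i t v s) (D' : Dat a' k i t' v s) : a = a' := by
  have h1 : t * v = t' * v := by rw [D.hs, D'.hs]
  have h2 : t = t' := Nat.eq_of_mul_eq_mul_right D.hv h1
  subst h2
  have h3 : (a : ℤ) ^ k = (a' : ℤ) ^ k := by rw [D.h, D'.h]
  have h4 : a ^ k = a' ^ k := by exact_mod_cast h3
  exact Nat.pow_left_injective (by have := D.hk; omega) h4

/-- the count -/
theorem count {N S I : ℕ} (hI : I = 16 * (Nat.log 2 N + 1) ^ 2) (hNI : 2 * I ^ 2 ≤ Nat.sqrt N)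
    (E : Finset ℕ) (hE : ∀ a ∈ E, a ≤ N ∧ ∃ k i t v s : ℕ, Dat a k i t v s ∧ s ≤ S) :
    (E.card : ℝ) ≤ 12 * (S + 1) * (I : ℝ) ^ 3 * √N := by
  classical
  set R := Nat.sqrt N with hR
  have hI1 : 1 ≤ I := by
    rw [hI]
    have : 1 ≤ (Nat.log 2 N + 1) ^ 2 := Nat.one_le_pow _ _ (by omega)
    omega
  have hR2 : 2 ≤ R := by nlinarith
  have hN4 : 4 ≤ N := by
    have := Nat.sqrt_le N
    rw [← hR] at this
    nlinarith
  have hI1R : (1 : ℝ) ≤ I := by exact_mod_cast hI1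
  have hRR : (2 : ℝ) ≤ R := by exact_mod_cast hR2
  have hsqN : (2 : ℝ) ≤ √N := by
    rw [Real.le_sqrt (by norm_num) (by positivity)]
    norm_num
    exact_mod_cast hN4
  have hRle : (R : ℝ) ≤ √N := by
    rw [Real.le_sqrt (by positivity) (by positivity)]
    have := Nat.sqrt_le' N
    rw [← hR] at this
    exact_mod_cast this
  have hRge : √N ≤ R + 1 := by
    rw [Real.sqrt_le_left (by positivity)]
    have := Nat.lt_succ_sqrt' N
    rw [← hR] at this
    have h2 : N ≤ (R + 1) ^ 2 := this.le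
    exact_mod_cast h2
  have hRge' : √N ≤ 2 * R := by linarith
  have hsNN : √N * √N = N := Real.mul_self_sqrt (by positivity)
  -- choose data
  have hE' : ∀ a : ℕ, ∃ d : ℕ × ℕ × ℕ × ℕ × ℕ, a ∈ E → Dat a d.1 d.2.1 d.2.2.1 d.2.2.2.1 d.2.2.2.2 ∧
      d.2.2.2.2 ≤ S := by
    intro a
    by_cases ha : a ∈ E
    · obtain ⟨-, k, i, t, v, s, h1, h2⟩ := hE a ha
      exact ⟨(k, i, t, v, s), fun _ => ⟨h1, h2⟩⟩
    · exact ⟨(0, 0, 0, 0, 0), fun h => absurd h ha⟩
  choose d hd using hE'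
  set κ : ℕ → ℕ := fun a => (d a).1 with hκ
  set ι : ℕ → ℕ := fun a => (d a).2.1 with hι
  set τ : ℕ → ℕ := fun a => (d a).2.2.1 with hτ
  set ν : ℕ → ℕ := fun a => (d a).2.2.2.1 with hν
  set σ : ℕ → ℕ := fun a => (d a).2.2.2.2 with hσ
  have hD : ∀ a ∈ E, Dat a (κ a) (ι a) (τ a) (ν a) (σ a) ∧ σ a ≤ S := fun a ha => hd a ha
  have hιI : ∀ a ∈ E, ι a < I := by
    intro a ha
    rw [hI]
    exact (hD a ha).1.index_lt (hE a ha).1
  -- small `k`
  have h1 : (E.filter (fun a => κ a ≤ R)).card ≤ I * (I * ((S + 1) * (R + 1))) := by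
    have : (E.filter (fun a => κ a ≤ R)).card ≤
        ((range I) ×ˢ ((range I) ×ˢ ((range (S + 1)) ×ˢ (range (R + 1))))).card := by
      apply card_le_card_of_injOn (fun a => (ι a, ν a, σ a, κ a))
      · intro a ha
        rw [mem_coe, mem_filter] at ha
        simp only [coe_product, Set.mem_prod, mem_coe, mem_range]
        have g1 := hιI a ha.1
        have g2 := (hD a ha.1).1.hvi
        have g3 := (hD a ha.1).2
        exact ⟨g1, by omega, by omega, by omega⟩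
      · intro a ha a' ha' haa
        rw [mem_coe, mem_filter] at ha ha'
        simp only [Prod.mk.injEq] at haa
        obtain ⟨e1, e2, e3, e4⟩ := haa
        have g1 := (hD a ha.1).1
        have g2 := (hD a' ha'.1).1
        rw [← e1, ← e2, ← e3, ← e4] at g2
        exact g1.inj g2
    simpa [card_product] using this
  -- large `k`
  set η : ℝ := (I : ℝ) ^ 2 / R with hη
  have hη0 : 0 ≤ η := by positivity
  have hη1 : 2 * η ≤ 1 := by
    rw [hη, mul_div_assoc', div_le_one (by positivity)]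
    exact_mod_cast hNI
  have h2 : (E.filter (fun a => ¬ κ a ≤ R)).card ≤ (⌊4 * η * N⌋₊ + 1) *
      ((E.filter (fun a => ¬ κ a ≤ R)).image (fun a => (ι a, σ a))).card := by
    apply card_le_mul_card_image
    rintro ⟨i, s⟩ _
    set F := (E.filter (fun a => ¬ κ a ≤ R)).filter (fun a => (ι a, σ a) = (i, s)) with hF
    rcases F.eq_empty_or_nonempty with h0 | h0
    · rw [h0]; simp
    · set m := F.min' h0 with hm
      have hmF : m ∈ F := min'_mem F h0
      have hwin : ∀ a ∈ F, (a : ℝ) ≤ (s : ℝ) ^ i * Real.exp η ∧ (s : ℝ) ^ i ≤ a * Real.exp η ∧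
          a ≤ N := by
        intro a ha
        rw [hF, mem_filter, mem_filter] at ha
        obtain ⟨⟨g1, g2⟩, g3⟩ := ha
        simp only [Prod.mk.injEq] at g3
        have g4 := (hD a g1).1.window (I := I) (R := R) (hιI a g1) (by omega) (by omega)
        rw [g3.1, g3.2] at g4
        exact ⟨g4.1, g4.2, (hE a g1).1⟩
      have hsub : F ⊆ Icc m (m + ⌊4 * η * N⌋₊) := by
        intro a ha
        rw [mem_Icc]
        refine ⟨min'_le F a ha, ?_⟩
        obtain ⟨g1, g2, g3⟩ := hwin a ha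
        obtain ⟨g4, g5, g6⟩ := hwin m hmF
        have e1 : (a : ℝ) - m ≤ 4 * η * N := by
          have e2 : (a : ℝ) ≤ m * Real.exp (2 * η) := by
            calc (a : ℝ) ≤ (s : ℝ) ^ i * Real.exp η := g1
              _ ≤ (m * Real.exp η) * Real.exp η :=
                  mul_le_mul_of_nonneg_right g5 (Real.exp_nonneg _)
              _ = m * Real.exp (2 * η) := by rw [mul_assoc, ← Real.exp_add]; ring_nf
          have e3 : Real.exp (2 * η) - 1 ≤ 2 * (2 * η) := by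
            have := Real.abs_exp_sub_one_le (x := 2 * η) (by rw [abs_of_nonneg (by linarith)]; exact hη1)
            rw [abs_of_nonneg (show 0 ≤ 2 * η by linarith)] at this
            exact (le_abs_self _).trans this
          have e4 : (m : ℝ) ≤ N := by exact_mod_cast g6
          calc (a : ℝ) - m ≤ m * (Real.exp (2 * η) - 1) := by linarith
            _ ≤ m * (2 * (2 * η)) := mul_le_mul_of_nonneg_left e3 (by positivity)
            _ ≤ N * (2 * (2 * η)) := mul_le_mul_of_nonneg_right e4 (by positivity)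
            _ = _ := by ring
        have e5 : m ≤ a := min'_le F a ha
        have e6 : ((a - m : ℕ) : ℝ) ≤ 4 * η * N := by rw [Nat.cast_sub e5]; exact e1
        have e7 := Nat.le_floor e6
        omega
      calc F.card ≤ (Icc m (m + ⌊4 * η * N⌋₊)).card := card_le_card hsub
        _ = ⌊4 * η * N⌋₊ + 1 := by rw [Nat.card_Icc]; omega
  have h3 : ((E.filter (fun a => ¬ κ a ≤ R)).image (fun a => (ι a, σ a))).card ≤ I * (S + 1) := by
    have : ((E.filter (fun a => ¬ κ a ≤ R)).image (fun a => (ι a, σ a))) ⊆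
        (range I) ×ˢ (range (S + 1)) := by
      intro x hx
      rw [mem_image] at hx
      obtain ⟨a, ha, rfl⟩ := hx
      rw [mem_filter] at ha
      rw [mem_product, mem_range, mem_range]
      exact ⟨hιI a ha.1, by have := (hD a ha.1).2; simp only; omega⟩
    calc _ ≤ ((range I) ×ˢ (range (S + 1))).card := card_le_card this
      _ = _ := by rw [card_product, card_range, card_range]
  have h4 : E.card = (E.filter (fun a => κ a ≤ R)).card + (E.filter (fun a => ¬ κ a ≤ R)).card :=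
    (card_filter_add_card_filter_not _).symm
  have h5 : (E.card : ℝ) ≤ I * (I * ((S + 1) * (R + 1))) + (4 * η * N + 1) * (I * (S + 1)) := by
    rw [h4]
    push_cast
    apply add_le_add
    · exact_mod_cast h1
    · have g1 : ((E.filter (fun a => ¬ κ a ≤ R)).card : ℝ) ≤ ((⌊4 * η * N⌋₊ : ℝ) + 1) *
          (((E.filter (fun a => ¬ κ a ≤ R)).image (fun a => (ι a, σ a))).card : ℝ) := by
        exact_mod_cast h2
      refine g1.trans ?_
      have g2 : (⌊4 * η * N⌋₊ : ℝ) ≤ 4 * η * N := Nat.floor_le (by positivity)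
      have g3 : (((E.filter (fun a => ¬ κ a ≤ R)).image (fun a => (ι a, σ a))).card : ℝ) ≤
          I * (S + 1) := by exact_mod_cast h3
      apply mul_le_mul (by linarith) g3 (by positivity) (by positivity)
  refine h5.trans ?_
  have h6 : 4 * η * N ≤ 8 * I ^ 2 * √N := by
    rw [hη]
    have : 4 * ((I : ℝ) ^ 2 / R) * N = (4 * I ^ 2 * √N) * (√N / R) := by
      nth_rewrite 1 [← hsNN]
      ring
    rw [this]
    have h7 : √N / R ≤ 2 := by
      rw [div_le_iff₀ (by positivity)]; exact hRge'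
    calc (4 * (I : ℝ) ^ 2 * √N) * (√N / R) ≤ (4 * (I : ℝ) ^ 2 * √N) * 2 :=
          mul_le_mul_of_nonneg_left h7 (by positivity)
      _ = _ := by ring
  have hS0 : (0 : ℝ) ≤ (S : ℝ) + 1 := by positivity
  have h8 : (I : ℝ) * (I * ((S + 1) * (R + 1))) ≤ 2 * (S + 1) * (I : ℝ) ^ 3 * √N := by
    have e1 : (R : ℝ) + 1 ≤ 2 * √N := by linarith
    have e2 : (I : ℝ) * (I * ((S + 1) * (R + 1))) = ((S + 1) * I ^ 2) * (R + 1) := by ring
    rw [e2]
    have e3 : (S + 1) * (I : ℝ) ^ 2 * (R + 1) ≤ ((S + 1) * (I : ℝ) ^ 2) * (2 * √N) :=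
      mul_le_mul_of_nonneg_left e1 (by positivity)
    have e4 : (I : ℝ) ^ 2 ≤ I ^ 3 := pow_le_pow_right₀ hI1R (by norm_num)
    have e5 : ((S + 1) * (I : ℝ) ^ 2) * (2 * √N) ≤ ((S + 1) * (I : ℝ) ^ 3) * (2 * √N) := by
      apply mul_le_mul_of_nonneg_right _ (by positivity)
      exact mul_le_mul_of_nonneg_left e4 hS0
    linarith
  have h9 : (4 * η * N + 1) * (I * (S + 1)) ≤ 9 * (S + 1) * (I : ℝ) ^ 3 * √N := by
    have e1 : 4 * η * N + 1 ≤ 9 * I ^ 2 * √N := by
      have : 1 ≤ (I : ℝ) ^ 2 * √N := by nlinarith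
      linarith
    calc (4 * η * N + 1) * (I * (S + 1)) ≤ (9 * I ^ 2 * √N) * (I * (S + 1)) :=
          mul_le_mul_of_nonneg_right e1 (by positivity)
      _ = _ := by ring
  have h10 : 0 ≤ (S + 1) * (I : ℝ) ^ 3 * √N := by positivity
  linarith

end Pool.Agent.W5h37.Cohn
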