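import Mathlib
import Pool.Agent.W5h37.Cohn.Cheb

/-!
If `(A^2 - 1)(B^2 - 1)` is a square then `A` and `B` are values of Chebyshev polynomials at one
point.
-/

set_option autoImplicit false

namespace Pool.Agent.W5h37.Cohn

theorem pow_x {d : ℤ} (a : Pell.Solution₁ d) (n : ℕ) : (a ^ n).x = Ch a.x n ∧
    (a ^ (n + 1)).x = Ch a.x (n + 1) := by
  induction n with
  | zero => simp [Ch_zero, Ch_one]
  | succ n ih =>
    refine ⟨ih.2, ?_⟩
    rw [show n + 1 + 1 = n + 2 from rfl, Ch_add_two, ← ih.1, ← ih.2]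
    have e1 : a ^ (n + 2) = a ^ n * a * a := by rw [pow_succ, pow_succ]
    have e2 : a ^ (n + 1) = a ^ n * a := by rw [pow_succ]
    rw [e1, e2]
    simp only [Pell.Solution₁.x_mul, Pell.Solution₁.y_mul]
    have h := a.prop
    linear_combination -(a ^ n).x * h

theorem pell_pair {A B x : ℕ} (hA : 2 ≤ A) (hB : 2 ≤ B) (h : (A ^ 2 - 1) * (B ^ 2 - 1) = x ^ 2) :
    ∃ t i j : ℕ, 2 ≤ t ∧ 1 ≤ i ∧ 1 ≤ j ∧ (A : ℤ) = Ch t i ∧ (B : ℤ) = Ch t j := by
  have hA1 : 1 ≤ A ^ 2 := Nat.one_le_pow _ _ (by omega)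
  have hB1 : 1 ≤ B ^ 2 := Nat.one_le_pow _ _ (by omega)
  obtain ⟨D, y, hDy, hD⟩ := Nat.sq_mul_squarefree (A ^ 2 - 1)
  have hA2 : 4 ≤ A ^ 2 := by nlinarith
  have hB2 : 4 ≤ B ^ 2 := by nlinarith
  have hy0 : 0 < y := by
    rcases Nat.eq_zero_or_pos y with h0 | h0
    · rw [h0] at hDy; simp at hDy; omega
    · exact h0
  have hD0 : 0 < D := by
    rcases Nat.eq_zero_or_pos D with h0 | h0
    · rw [h0] at hDy; simp at hDy; omega
    · exact h0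
  have h1 : y ∣ x := by
    have : y ^ 2 ∣ x ^ 2 := by rw [← h, ← hDy, mul_assoc]; exact dvd_mul_right _ _
    exact (Nat.pow_dvd_pow_iff (by norm_num)).1 this
  obtain ⟨x', rfl⟩ := h1
  have h2 : D * (B ^ 2 - 1) = x' ^ 2 := by
    have : y ^ 2 * (D * (B ^ 2 - 1)) = y ^ 2 * x' ^ 2 := by
      rw [← mul_assoc, hDy, h]; ring
    exact Nat.eq_of_mul_eq_mul_left (by positivity) this
  have h3 : D ∣ x' := (hD.dvd_pow_iff_dvd (by norm_num : 2 ≠ 0)).1 (h2 ▸ dvd_mul_right _ _)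
  obtain ⟨w, rfl⟩ := h3
  have h4 : B ^ 2 - 1 = D * w ^ 2 := by
    have : D * (B ^ 2 - 1) = D * (D * w ^ 2) := by rw [h2]; ring
    exact Nat.eq_of_mul_eq_mul_left hD0 this
  have hw0 : 0 < w := by
    rcases Nat.eq_zero_or_pos w with h0 | h0
    · rw [h0] at h4; simp at h4; omega
    · exact h0
  -- `D` is not a square
  have hns : ¬ IsSquare (D : ℤ) := by
    rintro ⟨r, hr⟩
    have e1 : (A : ℤ) ^ 2 - 1 = ((y : ℤ) * r) ^ 2 := by
      have : ((A ^ 2 - 1 : ℕ) : ℤ) = (y ^ 2 * D : ℕ) := by rw [hDy]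
      rw [Nat.cast_sub hA1] at this
      push_cast at this
      rw [this, hr]; ring
    have e2 : ((A : ℤ) - |(y : ℤ) * r|) * ((A : ℤ) + |(y : ℤ) * r|) = 1 := by
      have := sq_abs ((y : ℤ) * r)
      nlinarith
    have e3 : 0 ≤ |(y : ℤ) * r| := abs_nonneg _
    have e4 : (2 : ℤ) ≤ A := by exact_mod_cast hA
    have e5 := Int.eq_one_or_neg_one_of_mul_eq_one e2
    have e6 := Int.eq_one_or_neg_one_of_mul_eq_one' e2
    rcases e6 with ⟨e6, e7⟩ | ⟨e6, e7⟩ <;> omega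
  obtain ⟨a₁, ha₁⟩ := Pell.IsFundamental.exists_of_not_isSquare
    (show (0 : ℤ) < D by exact_mod_cast hD0) hns
  have eA : (A : ℤ) ^ 2 - D * (y : ℤ) ^ 2 = 1 := by
    have : ((A ^ 2 - 1 : ℕ) : ℤ) = (y ^ 2 * D : ℕ) := by rw [hDy]
    rw [Nat.cast_sub hA1] at this
    push_cast at this
    linarith
  have eB : (B : ℤ) ^ 2 - D * (w : ℤ) ^ 2 = 1 := by
    have : ((B ^ 2 - 1 : ℕ) : ℤ) = (D * w ^ 2 : ℕ) := by rw [h4]
    rw [Nat.cast_sub hB1] at this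
    push_cast at this
    linarith
  obtain ⟨i, hi⟩ := ha₁.eq_pow_of_nonneg (a := Pell.Solution₁.mk A y eA)
    (by rw [Pell.Solution₁.x_mk]; exact_mod_cast (by omega : 0 < A))
    (by rw [Pell.Solution₁.y_mk]; positivity)
  obtain ⟨j, hj⟩ := ha₁.eq_pow_of_nonneg (a := Pell.Solution₁.mk B w eB)
    (by rw [Pell.Solution₁.x_mk]; exact_mod_cast (by omega : 0 < B))
    (by rw [Pell.Solution₁.y_mk]; positivity)
  have hx1 : 1 < a₁.x := ha₁.1
  have hA' : (A : ℤ) = Ch a₁.x i := by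
    rw [← (pow_x a₁ i).1, ← hi, Pell.Solution₁.x_mk]
  have hB' : (B : ℤ) = Ch a₁.x j := by
    rw [← (pow_x a₁ j).1, ← hj, Pell.Solution₁.x_mk]
  refine ⟨a₁.x.toNat, i, j, by omega, ?_, ?_, ?_, ?_⟩
  · rcases Nat.eq_zero_or_pos i with h0 | h0
    · rw [h0, Ch_zero] at hA'; omega
    · exact h0
  · rcases Nat.eq_zero_or_pos j with h0 | h0
    · rw [h0, Ch_zero] at hB'; omega
    · exact h0
  · rw [hA', Int.toNat_of_nonneg (by omega)]
  · rw [hB', Int.toNat_of_nonneg (by omega)]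

/-- coprime indices -/
theorem pell_coprime {A B x : ℕ} (hA : 2 ≤ A) (hAB : A < B)
    (h : (A ^ 2 - 1) * (B ^ 2 - 1) = x ^ 2) :
    ∃ t i j : ℕ, 2 ≤ t ∧ 1 ≤ i ∧ i < j ∧ Nat.Coprime i j ∧ (A : ℤ) = Ch t i ∧ (B : ℤ) = Ch t j := by
  obtain ⟨t, i, j, ht, hi, hj, h1, h2⟩ := pell_pair hA (by omega) h
  have hg : 0 < Nat.gcd i j := Nat.gcd_pos_of_pos_left _ hi
  obtain ⟨i', hi'⟩ := Nat.gcd_dvd_left i j
  obtain ⟨j', hj'⟩ := Nat.gcd_dvd_right i j
  have hc : Nat.Coprime i' j' := by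
    have := Nat.coprime_div_gcd_div_gcd hg
    rwa [show i / Nat.gcd i j = i' from Nat.div_eq_of_eq_mul_right hg hi',
      show j / Nat.gcd i j = j' from Nat.div_eq_of_eq_mul_right hg hj'] at this
  have htz : (2 : ℤ) ≤ t := by exact_mod_cast ht
  set t' := Ch t (Nat.gcd i j) with ht'
  have ht2 : 2 ≤ t' := by
    have : Ch t 1 ≤ t' := (Ch_strictMono htz).monotone hg
    rw [Ch_one] at this
    linarith
  have e1 : (A : ℤ) = Ch t' i' := by
    rw [h1, ht', ← Ch_mul, mul_comm i', ← hi']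
  have e2 : (B : ℤ) = Ch t' j' := by
    rw [h2, ht', ← Ch_mul, mul_comm j', ← hj']
  have hi0 : 1 ≤ i' := by
    rcases Nat.eq_zero_or_pos i' with h0 | h0
    · rw [h0] at hi'; omega
    · exact h0
  have hij : i' < j' := by
    rw [← (Ch_strictMono ht2).lt_iff_lt, ← e1, ← e2]
    exact_mod_cast hAB
  refine ⟨t'.toNat, i', j', by omega, hi0, hij, hc, ?_, ?_⟩
  · rw [Int.toNat_of_nonneg (by omega)]; exact e1
  · rw [Int.toNat_of_nonneg (by omega)]; exact e2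

end Pool.Agent.W5h37.Cohn
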