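import Mathlib
import Pool.Agent.W5h37.Cohn.PellC
import Pool.Agent.W5h37.Cohn.Cnt

/-!
Even exponents.
-/

set_option autoImplicit false

namespace Pool.Agent.W5h37.Cohn

open Finset Filter Topology

/-- the index bound is `N ^ o(1)` -/
theorem ev_I {ε : ℝ} (hε : 0 < ε) : ∀ᶠ N : ℕ in atTop,
    ((16 * (Nat.log 2 N + 1) ^ 2 : ℕ) : ℝ) ≤ (N : ℝ) ^ ε := by
  have h := ((isLittleO_log_rpow_rpow_atTop (s := ε) 2 hε).const_mul_left 144).bound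
    (show (0 : ℝ) < 1 by norm_num)
  have h2 : ∀ᶠ N : ℕ in atTop, 1 ≤ Real.log N :=
    (Real.tendsto_log_atTop.comp tendsto_natCast_atTop_atTop).eventually_ge_atTop _
  filter_upwards [tendsto_natCast_atTop_atTop.eventually h, h2, eventually_ge_atTop 1] with N hN h2 h1
  rw [one_mul, Real.norm_of_nonneg (Real.rpow_nonneg (Nat.cast_nonneg N) _)] at hN
  refine le_trans ?_ hN
  refine le_trans ?_ (Real.le_norm_self _)
  have e1 : (Nat.log 2 N : ℝ) ≤ 2 * Real.log N := by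
    have e2 : ((2 : ℕ) : ℝ) ^ Nat.log 2 N ≤ N := by
      exact_mod_cast Nat.pow_log_le_self 2 (by omega)
    have e3 : (Nat.log 2 N : ℝ) * Real.log 2 ≤ Real.log N := by
      rw [← Real.log_pow]
      apply Real.log_le_log (by positivity)
      exact_mod_cast e2
    have e4 : (1 : ℝ) / 2 ≤ Real.log 2 := by have := Real.log_two_gt_d9; linarith
    have e5 : (Nat.log 2 N : ℝ) * (1 / 2) ≤ (Nat.log 2 N : ℝ) * Real.log 2 :=
      mul_le_mul_of_nonneg_left e4 (Nat.cast_nonneg _)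
    linarith
  push_cast
  rw [Real.rpow_two]
  have e6 : (Nat.log 2 N : ℝ) + 1 ≤ 3 * Real.log N := by linarith
  have e7 : ((Nat.log 2 N : ℝ) + 1) ^ 2 ≤ (3 * Real.log N) ^ 2 :=
    pow_le_pow_left₀ (by positivity) e6 2
  nlinarith

/-- the count, for large `N` -/
theorem count_ev {ε : ℝ} (hε : 0 < ε) : ∃ N₀ : ℕ, ∀ N : ℕ, N₀ ≤ N → ∀ (S : ℕ) (E : Finset ℕ),
    (∀ a ∈ E, a ≤ N ∧ ∃ k i t v s : ℕ, Dat a k i t v s ∧ s ≤ S) →
    (E.card : ℝ) ≤ (S + 1) * (N : ℝ) ^ (1 / 2 + ε) := by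
  have h1 := ev_I (show 0 < ε / 4 by positivity)
  have h2 := ev_I (show (0 : ℝ) < 1 / 12 by norm_num)
  have h3 : ∀ᶠ N : ℕ in atTop, (12 : ℝ) ≤ (N : ℝ) ^ (ε / 4) :=
    ((tendsto_rpow_atTop (by positivity)).comp tendsto_natCast_atTop_atTop).eventually_ge_atTop _
  have h4 : ∀ᶠ N : ℕ in atTop, (4 : ℝ) ≤ (N : ℝ) ^ (1 / 3 : ℝ) :=
    ((tendsto_rpow_atTop (by norm_num)).comp tendsto_natCast_atTop_atTop).eventually_ge_atTop _
  obtain ⟨N₀, hN₀⟩ := eventually_atTop.1 (h1.and (h2.and (h3.and (h4.and (eventually_ge_atTop 1)))))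
  refine ⟨N₀, fun N hN S E hE => ?_⟩
  obtain ⟨g1, g2, g3, g4, g5⟩ := hN₀ N hN
  have hNR : (0 : ℝ) < N := by exact_mod_cast g5
  have hN1 : (1 : ℝ) ≤ N := by exact_mod_cast g5
  set I := 16 * (Nat.log 2 N + 1) ^ 2 with hI
  have hNI : 2 * I ^ 2 ≤ Nat.sqrt N := by
    rw [Nat.le_sqrt']
    have e1 : (((2 * I ^ 2) ^ 2 : ℕ) : ℝ) ≤ (N : ℝ) := by
      push_cast
      have e2 : (I : ℝ) ^ 4 ≤ (N : ℝ) ^ (1 / 3 : ℝ) := by
        calc (I : ℝ) ^ 4 ≤ ((N : ℝ) ^ (1 / 12 : ℝ)) ^ 4 := pow_le_pow_left₀ (by positivity) g2 4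
          _ = (N : ℝ) ^ (1 / 3 : ℝ) := by
              rw [← Real.rpow_natCast, ← Real.rpow_mul hNR.le]; norm_num
      have e3 : (N : ℝ) ^ (1 / 3 : ℝ) * (N : ℝ) ^ (1 / 3 : ℝ) ≤ N := by
        rw [← Real.rpow_add hNR]
        calc (N : ℝ) ^ (1 / 3 + 1 / 3 : ℝ) ≤ (N : ℝ) ^ (1 : ℝ) :=
              Real.rpow_le_rpow_of_exponent_le hN1 (by norm_num)
          _ = N := Real.rpow_one _
      calc (2 * (I : ℝ) ^ 2) ^ 2 = 4 * (I : ℝ) ^ 4 := by ring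
        _ ≤ (N : ℝ) ^ (1 / 3 : ℝ) * (N : ℝ) ^ (1 / 3 : ℝ) := mul_le_mul g4 e2 (by positivity) (by positivity)
        _ ≤ N := e3
    exact_mod_cast e1
  refine (count hI hNI E hE).trans ?_
  have e1 : 12 * (I : ℝ) ^ 3 ≤ (N : ℝ) ^ ε := by
    calc 12 * (I : ℝ) ^ 3 ≤ (N : ℝ) ^ (ε / 4) * ((N : ℝ) ^ (ε / 4)) ^ 3 :=
          mul_le_mul g3 (pow_le_pow_left₀ (by positivity) g1 3) (by positivity) (by positivity)
      _ = (N : ℝ) ^ ε := by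
          rw [← Real.rpow_natCast, ← Real.rpow_mul hNR.le, ← Real.rpow_add hNR]
          congr 1; push_cast; ring
  have e2 : (N : ℝ) ^ (1 / 2 + ε) = √N * (N : ℝ) ^ ε := by
    rw [Real.rpow_add hNR, Real.sqrt_eq_rpow]
  rw [e2]
  calc 12 * ((S : ℝ) + 1) * (I : ℝ) ^ 3 * √N = (S + 1) * (√N * (12 * (I : ℝ) ^ 3)) := by ring
    _ ≤ (S + 1) * (√N * (N : ℝ) ^ ε) := by
        apply mul_le_mul_of_nonneg_left _ (by positivity)
        exact mul_le_mul_of_nonneg_left e1 (by positivity)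

/-- bases of powers with an odd index at least three -/
def OddVal (a : ℕ) : Prop := ∃ k i t : ℕ, 1 ≤ k ∧ Odd i ∧ 3 ≤ i ∧ 2 ≤ t ∧ (a : ℤ) ^ k = Ch t i

theorem Dat.mk_of_odd {a k i t : ℕ} (hk : 1 ≤ k) (hi : Odd i) (ht : 2 ≤ t)
    (h : (a : ℤ) ^ k = Ch t i) : ∃ v s : ℕ, Dat a k i t v s ∧ v ∣ i ∧ s ∣ a := by
  obtain ⟨v, s, h1, h2, h3⟩ := structure_odd (by omega) hi hk h
  have hi0 : 0 < i := hi.pos
  exact ⟨v, s, ⟨hk, hi0, ht, Nat.pos_of_dvd_of_pos h1 hi0, Nat.le_of_dvd hi0 h1, h3, h⟩, h1, h2⟩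

/-- few bases of powers with an odd index at least three -/
theorem oddVal_count : ∃ N₀ : ℕ, ∀ N : ℕ, N₀ ≤ N → ∀ E : Finset ℕ,
    (∀ a ∈ E, a ≤ N ∧ OddVal a) → (E.card : ℝ) ≤ (N : ℝ) ^ (11 / 12 : ℝ) := by
  obtain ⟨N₁, hN₁⟩ := count_ev (show (0 : ℝ) < 1 / 48 by norm_num)
  have h1 := ev_I (show (0 : ℝ) < 1 / 48 by norm_num)
  have h3 : ∀ᶠ N : ℕ in atTop, (2 : ℝ) ≤ (N : ℝ) ^ (1 / 24 : ℝ) :=
    ((tendsto_rpow_atTop (by norm_num)).comp tendsto_natCast_atTop_atTop).eventually_ge_atTop _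
  obtain ⟨N₂, hN₂⟩ := eventually_atTop.1 (h1.and (h3.and (eventually_ge_atTop 1)))
  refine ⟨max N₁ N₂, fun N hN E hE => ?_⟩
  rw [max_le_iff] at hN
  obtain ⟨g1, g3, g5⟩ := hN₂ N hN.2
  have hNR : (0 : ℝ) < N := by exact_mod_cast g5
  have hN1 : (1 : ℝ) ≤ N := by exact_mod_cast g5
  set I := 16 * (Nat.log 2 N + 1) ^ 2 with hI
  have h5 := hN₁ N hN.1 ⌊(I : ℝ) * (N : ℝ) ^ (1 / 3 : ℝ)⌋₊ E (by
    intro a ha
    obtain ⟨h6, k, i, t, hk, hi, hi3, ht, h⟩ := hE a ha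
    refine ⟨h6, k, i, t, ?_⟩
    obtain ⟨v, s, h7, -, -⟩ := Dat.mk_of_odd hk hi ht h
    exact ⟨v, s, h7, Nat.le_floor (h7.s_cube h6 g5 hi3 (h7.index_lt h6))⟩)
  refine h5.trans ?_
  have hI1 : (1 : ℝ) ≤ I := by
    have : 1 ≤ I := by
      rw [hI]
      have : 1 ≤ (Nat.log 2 N + 1) ^ 2 := Nat.one_le_pow _ _ (by omega)
      omega
    exact_mod_cast this
  have hN3 : (1 : ℝ) ≤ (N : ℝ) ^ (1 / 3 : ℝ) := Real.one_le_rpow hN1 (by norm_num)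
  have e1 : (⌊(I : ℝ) * (N : ℝ) ^ (1 / 3 : ℝ)⌋₊ : ℝ) + 1 ≤ 2 * ((I : ℝ) * (N : ℝ) ^ (1 / 3 : ℝ)) := by
    have e2 : (⌊(I : ℝ) * (N : ℝ) ^ (1 / 3 : ℝ)⌋₊ : ℝ) ≤ (I : ℝ) * (N : ℝ) ^ (1 / 3 : ℝ) :=
      Nat.floor_le (by positivity)
    nlinarith
  calc ((⌊(I : ℝ) * (N : ℝ) ^ (1 / 3 : ℝ)⌋₊ : ℝ) + 1) * (N : ℝ) ^ (1 / 2 + 1 / 48 : ℝ) ≤
      ((N : ℝ) ^ (1 / 24 : ℝ) * ((N : ℝ) ^ (1 / 48 : ℝ) * (N : ℝ) ^ (1 / 3 : ℝ))) *
        (N : ℝ) ^ (1 / 2 + 1 / 48 : ℝ) := by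
        apply mul_le_mul_of_nonneg_right _ (by positivity)
        refine e1.trans ?_
        apply mul_le_mul g3 _ (by positivity) (by positivity)
        exact mul_le_mul_of_nonneg_right g1 (by positivity)
    _ = (N : ℝ) ^ (11 / 12 : ℝ) := by
        rw [← Real.rpow_add hNR, ← Real.rpow_add hNR, ← Real.rpow_add hNR]
        norm_num

/-- the structure for even exponents -/
theorem even_structure {a b k x : ℕ} (ha : 2 ≤ a) (hab : a < b) (hk : 1 ≤ k)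
    (h : (a ^ (2 * k) - 1) * (b ^ (2 * k) - 1) = x ^ 2) :
    OddVal b ∨ ∃ i j t v s : ℕ, 1 ≤ i ∧ i < j ∧ Odd i ∧ v ∣ i ∧ s ∣ a ∧ Dat a k i t v s ∧
      Dat b k j t v s := by
  have hA : 2 ≤ a ^ k := ha.trans (Nat.le_self_pow (by omega) a)
  have hAB : a ^ k < b ^ k := Nat.pow_lt_pow_left hab (by omega)
  have h' : ((a ^ k) ^ 2 - 1) * ((b ^ k) ^ 2 - 1) = x ^ 2 := by
    rw [← pow_mul, ← pow_mul, mul_comm k 2]; exact h
  obtain ⟨t, i, j, ht, hi, hij, hc, h1, h2⟩ := pell_coprime hA hAB h'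
  push_cast at h1 h2
  rcases Nat.even_or_odd j with hj | hj
  · right
    have hio : Odd i := by
      rcases Nat.even_or_odd i with h0 | h0
      · exfalso
        have : 2 ∣ Nat.gcd i j := Nat.dvd_gcd h0.two_dvd hj.two_dvd
        rw [hc] at this
        omega
      · exact h0
    obtain ⟨v, s, D, hv, hs⟩ := Dat.mk_of_odd hk hio ht h1
    exact ⟨i, j, t, v, s, hi, hij, hio, hv, hs, D,
      ⟨hk, by omega, ht, D.hv, D.hvi.trans hij.le, D.hs, h2⟩⟩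
  · left
    refine ⟨k, j, t, hk, hj, ?_, ht, h2⟩
    rcases hj with ⟨r, hr⟩
    omega

/-- in the second case the base is a value with odd index at least three or `a ^ 2 ≤ b` -/
theorem even_pair {a b k x : ℕ} (ha : 2 ≤ a) (hab : a < b) (hk : 1 ≤ k)
    (h : (a ^ (2 * k) - 1) * (b ^ (2 * k) - 1) = x ^ 2) :
    OddVal b ∨ OddVal a ∨ a ^ 2 ≤ b := by
  rcases even_structure ha hab hk h with h | ⟨i, j, t, v, s, hi, hij, hio, -, -, D, D'⟩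
  · exact Or.inl h
  · right
    rcases Nat.lt_or_ge i 3 with h3 | h3
    · right
      have hi1 : i = 1 := by
        rcases hio with ⟨r, hr⟩
        omega
      subst hi1
      have h1 := D.h
      rw [Ch_one] at h1
      have ht : (2 : ℤ) ≤ t := by exact_mod_cast D.ht
      have h2 : (a : ℤ) ^ (2 * k) ≤ (b : ℤ) ^ k := by
        rw [D'.h]
        calc (a : ℤ) ^ (2 * k) = (t : ℤ) ^ 2 := by rw [mul_comm, pow_mul, h1]
          _ ≤ Ch t 2 := by rw [Ch_two]; nlinarith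
          _ ≤ Ch t j := (Ch_strictMono ht).monotone (by omega)
      have h3 : (a ^ 2) ^ k ≤ b ^ k := by
        rw [← pow_mul]; exact_mod_cast h2
      exact (Nat.pow_le_pow_iff_left (by omega)).1 h3
    · left
      exact ⟨k, i, t, hk, hio, h3, D.ht, D.h⟩

end Pool.Agent.W5h37.Cohn
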