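import Mathlib

/-!
Local densities: for a prime `t ≡ 1 (mod 4)` and odd `n` the quadratic character of `x ^ n - 1`
is equidistributed over the quadratic non-residues `x` modulo `t`.
-/

set_option autoImplicit false

namespace Pool.Agent.W5h37.Cohn

open Finset

/-- non-residues `x` for which `x ^ n - 1` has character `ε` -/
noncomputable def Sg (t : ℕ) [Fact t.Prime] (n : ℕ) (ε : ℤ) : Finset (ZMod t) :=
  univ.filter (fun x => quadraticChar (ZMod t) x = -1 ∧ quadraticChar (ZMod t) (x ^ n - 1) = ε)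

theorem mem_Sg {t : ℕ} [Fact t.Prime] {n : ℕ} {ε : ℤ} {x : ZMod t} :
    x ∈ Sg t n ε ↔ quadraticChar (ZMod t) x = -1 ∧ quadraticChar (ZMod t) (x ^ n - 1) = ε := by
  simp [Sg]

theorem inv_mem_Sg {t : ℕ} [Fact t.Prime] (ht : t % 4 = 1) {n : ℕ} (hn : Odd n) {ε : ℤ} {x : ZMod t}
    (hx : x ∈ Sg t n ε) : x⁻¹ ∈ Sg t n (-ε) := by
  rw [mem_Sg] at hx ⊢
  obtain ⟨h1, h2⟩ := hx
  have hx0 : x ≠ 0 := by
    intro h0
    rw [h0, quadraticChar_zero] at h1
    norm_num at h1
  have hm1 : quadraticChar (ZMod t) (-1) = 1 := by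
    rw [quadraticChar_one_iff_isSquare (by simp)]
    exact ZMod.exists_sq_eq_neg_one_iff.2 (by omega)
  have h3 : quadraticChar (ZMod t) x⁻¹ = -1 := by
    have : quadraticChar (ZMod t) x⁻¹ * quadraticChar (ZMod t) x = 1 := by
      rw [← map_mul, inv_mul_cancel₀ hx0, map_one]
    rw [h1] at this
    linarith
  refine ⟨h3, ?_⟩
  have h4 : x⁻¹ ^ n - 1 = (-1) * ((x ^ n - 1) * x⁻¹ ^ n) := by
    have : x ^ n * x⁻¹ ^ n = 1 := by rw [← mul_pow, mul_inv_cancel₀ hx0, one_pow]
    linear_combination this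
  rw [h4, map_mul, map_mul, map_pow, hm1, h2, h3, hn.neg_one_pow]
  ring

theorem card_Sg {t : ℕ} [Fact t.Prime] (ht : t % 4 = 1) {n : ℕ} (hn : Odd n) {ε : ℤ}
    (hε : ε = 1 ∨ ε = -1) : 4 * (Sg t n ε).card + 1 = t := by
  classical
  have ht2 : ringChar (ZMod t) ≠ 2 := by
    rw [ZMod.ringChar_zmod_n]; omega
  -- the two sets have the same size
  have h1 : (Sg t n 1).card = (Sg t n (-1)).card := by
    apply le_antisymm
    · apply card_le_card_of_injOn (fun x => x⁻¹)
      · intro x hx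
        exact inv_mem_Sg ht hn hx
      · intro x _ y _ hxy
        exact inv_injective hxy
    · apply card_le_card_of_injOn (fun x => x⁻¹)
      · intro x hx
        have := inv_mem_Sg ht hn hx
        rwa [neg_neg] at this
      · intro x _ y _ hxy
        exact inv_injective hxy
  -- their union
  have h2 : Sg t n 1 ∪ Sg t n (-1) = univ.filter (fun x => quadraticChar (ZMod t) x = -1) := by
    ext x
    rw [mem_union, mem_Sg, mem_Sg, mem_filter]
    constructor
    · rintro (⟨h, -⟩ | ⟨h, -⟩) <;> exact ⟨mem_univ _, h⟩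
    · rintro ⟨-, h⟩
      have h3 : x ^ n - 1 ≠ 0 := by
        intro h0
        have h4 : x ^ n = 1 := sub_eq_zero.1 h0
        have h5 : quadraticChar (ZMod t) (x ^ n) = -1 := by rw [map_pow, h, hn.neg_one_pow]
        rw [h4, map_one] at h5
        norm_num at h5
      rcases quadraticChar_dichotomy h3 with h4 | h4
      · exact Or.inl ⟨h, h4⟩
      · exact Or.inr ⟨h, h4⟩
  have h3 : Disjoint (Sg t n 1) (Sg t n (-1)) := by
    rw [disjoint_left]
    intro x hx hx'
    rw [mem_Sg] at hx hx'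
    have := hx.2.symm.trans hx'.2
    norm_num at this
  have h4 := card_union_of_disjoint h3
  rw [h2] at h4
  -- the number of non-residues
  have h5 : ∑ x : ZMod t, quadraticChar (ZMod t) x = 0 := quadraticChar_sum_zero ht2
  set A := univ.filter (fun x : ZMod t => quadraticChar (ZMod t) x = 1) with hA
  set B := univ.filter (fun x : ZMod t => quadraticChar (ZMod t) x = -1) with hB
  have h6 : (A.card : ℤ) - B.card = 0 := by
    rw [← h5]
    have e1 : ∀ x : ZMod t, quadraticChar (ZMod t) x =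
        (if quadraticChar (ZMod t) x = 1 then 1 else 0) -
        (if quadraticChar (ZMod t) x = -1 then 1 else 0) := by
      intro x
      by_cases hx : x = 0
      · rw [hx, quadraticChar_zero]; norm_num
      · rcases quadraticChar_dichotomy hx with h | h <;> rw [h] <;> norm_num
    rw [sum_congr rfl (fun x _ => e1 x), sum_sub_distrib, sum_boole, sum_boole]
  have h7 : A.card + B.card + 1 = t := by
    have e1 : (univ : Finset (ZMod t)) = insert 0 (A ∪ B) := by
      ext x
      simp only [mem_univ, true_iff, mem_insert, mem_union, hA, hB, mem_filter, true_and]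
      by_cases hx : x = 0
      · exact Or.inl hx
      · exact Or.inr (quadraticChar_dichotomy hx)
    have e2 : (univ : Finset (ZMod t)).card = t := by rw [card_univ, ZMod.card]
    have e3 : Disjoint A B := by
      rw [disjoint_left]
      intro x hx hx'
      rw [hA, mem_filter] at hx
      rw [hB, mem_filter] at hx'
      have := hx.2.symm.trans hx'.2
      norm_num at this
    have e4 : (0 : ZMod t) ∉ A ∪ B := by
      rw [mem_union, hA, hB, mem_filter, mem_filter, quadraticChar_zero]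
      norm_num
    rw [e1, card_insert_of_notMem e4, card_union_of_disjoint e3] at e2
    exact e2
  rcases hε with rfl | rfl <;> omega

open Classical in
/-- pairs modulo `t` for which `(x ^ n - 1)(y ^ n - 1)` is a square -/
noncomputable def Om2 (n t : ℕ) : Finset (Fin 2 → ZMod t) :=
  if h : t ≠ 0 then
    (haveI : NeZero t := ⟨h⟩
     univ.filter (fun A : Fin 2 → ZMod t => IsSquare (((A 0) ^ n - 1) * ((A 1) ^ n - 1))))
  else ∅

theorem mem_Om2 {n t : ℕ} (h : t ≠ 0) {A : Fin 2 → ZMod t} :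
    A ∈ Om2 n t ↔ IsSquare (((A 0) ^ n - 1) * ((A 1) ^ n - 1)) := by
  classical
  have : NeZero t := ⟨h⟩
  rw [Om2, dif_pos h]
  simp

open Classical in
/-- the `y` modulo `t` for which `(a ^ n - 1)(y ^ n - 1)` is a square -/
noncomputable def Om1 (a n t : ℕ) : Finset (Fin 1 → ZMod t) :=
  if h : t ≠ 0 then
    (haveI : NeZero t := ⟨h⟩
     univ.filter (fun A : Fin 1 → ZMod t => IsSquare (((a : ZMod t) ^ n - 1) * ((A 0) ^ n - 1))))
  else ∅

theorem mem_Om1 {a n t : ℕ} (h : t ≠ 0) {A : Fin 1 → ZMod t} :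
    A ∈ Om1 a n t ↔ IsSquare (((a : ZMod t) ^ n - 1) * ((A 0) ^ n - 1)) := by
  classical
  have : NeZero t := ⟨h⟩
  rw [Om1, dif_pos h]
  simp

theorem card_Om2 {n t : ℕ} (hn : Odd n) (ht : t.Prime) (h16 : 16 ≤ t) (h4 : t % 4 = 1) :
    ((Om2 n t).card : ℝ) ≤ (1 - 1 / 32) * (t : ℝ) ^ 2 := by
  classical
  have : Fact t.Prime := ⟨ht⟩
  have c1 := card_Sg h4 hn (ε := 1) (Or.inl rfl)
  have c2 := card_Sg h4 hn (ε := -1) (Or.inr rfl)
  set U : Finset (Fin 2 → ZMod t) := Fintype.piFinset (fun i : Fin 2 =>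
    if i = 0 then Sg t n 1 else Sg t n (-1)) with hU
  have hUc : U.card = (Sg t n 1).card * (Sg t n (-1)).card := by
    rw [hU, Fintype.card_piFinset, Fin.prod_univ_two]
    simp
  have hdisj : Disjoint (Om2 n t) U := by
    rw [disjoint_left]
    intro A hA hA'
    rw [mem_Om2 ht.ne_zero] at hA
    rw [hU, Fintype.mem_piFinset] at hA'
    have e0 := hA' 0
    have e1 := hA' 1
    rw [if_pos rfl, mem_Sg] at e0
    rw [if_neg (by decide), mem_Sg] at e1
    have e2 : quadraticChar (ZMod t) (((A 0) ^ n - 1) * ((A 1) ^ n - 1)) = -1 := by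
      rw [map_mul, e0.2, e1.2]; norm_num
    exact (quadraticChar_neg_one_iff_not_isSquare.1 e2) hA
  have h1 : (Om2 n t).card + U.card ≤ t ^ 2 := by
    rw [← card_union_of_disjoint hdisj]
    calc _ ≤ (univ : Finset (Fin 2 → ZMod t)).card := card_le_card (subset_univ _)
      _ = t ^ 2 := by rw [card_univ, Fintype.card_fun, ZMod.card, Fintype.card_fin]
  rw [hUc] at h1
  have h2 : ((Om2 n t).card : ℝ) + ((Sg t n 1).card : ℝ) * ((Sg t n (-1)).card : ℝ) ≤ (t : ℝ) ^ 2 := by
    exact_mod_cast h1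
  have c1' : ((Sg t n 1).card : ℝ) = ((t : ℝ) - 1) / 4 := by
    have : (4 : ℝ) * (Sg t n 1).card + 1 = t := by exact_mod_cast c1
    linarith
  have c2' : ((Sg t n (-1)).card : ℝ) = ((t : ℝ) - 1) / 4 := by
    have : (4 : ℝ) * (Sg t n (-1)).card + 1 = t := by exact_mod_cast c2
    linarith
  rw [c1', c2'] at h2
  have h16' : (16 : ℝ) ≤ t := by exact_mod_cast h16
  nlinarith

theorem card_Om1 {a n t : ℕ} (hn : Odd n) (ht : t.Prime) (h16 : 16 ≤ t) (h4 : t % 4 = 1)
    (ha : (a : ZMod t) ^ n ≠ 1) :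
    ((Om1 a n t).card : ℝ) ≤ (1 - 1 / 32) * (t : ℝ) ^ 1 := by
  classical
  have : Fact t.Prime := ⟨ht⟩
  set ε := -quadraticChar (ZMod t) ((a : ZMod t) ^ n - 1) with hε
  have hε' : ε = 1 ∨ ε = -1 := by
    rcases quadraticChar_dichotomy (sub_ne_zero.2 ha) with h | h
    · right; rw [hε, h]
    · left; rw [hε, h]; norm_num
  have c1 := card_Sg h4 hn hε'
  set U : Finset (Fin 1 → ZMod t) := Fintype.piFinset (fun _ : Fin 1 => Sg t n ε) with hU
  have hUc : U.card = (Sg t n ε).card := by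
    rw [hU, Fintype.card_piFinset]
    simp
  have hdisj : Disjoint (Om1 a n t) U := by
    rw [disjoint_left]
    intro A hA hA'
    rw [mem_Om1 ht.ne_zero] at hA
    rw [hU, Fintype.mem_piFinset] at hA'
    have e0 := hA' 0
    rw [mem_Sg] at e0
    have e2 : quadraticChar (ZMod t) (((a : ZMod t) ^ n - 1) * ((A 0) ^ n - 1)) = -1 := by
      rw [map_mul, e0.2, hε]
      rcases quadraticChar_dichotomy (sub_ne_zero.2 ha) with h | h <;> rw [h] <;> norm_num
    exact (quadraticChar_neg_one_iff_not_isSquare.1 e2) hA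
  have h1 : (Om1 a n t).card + U.card ≤ t ^ 1 := by
    rw [← card_union_of_disjoint hdisj]
    calc _ ≤ (univ : Finset (Fin 1 → ZMod t)).card := card_le_card (subset_univ _)
      _ = t ^ 1 := by rw [card_univ, Fintype.card_fun, ZMod.card, Fintype.card_fin]
  rw [hUc] at h1
  have h2 : ((Om1 a n t).card : ℝ) + ((Sg t n ε).card : ℝ) ≤ (t : ℝ) ^ 1 := by
    exact_mod_cast h1
  have c1' : ((Sg t n ε).card : ℝ) = ((t : ℝ) - 1) / 4 := by
    have : (4 : ℝ) * (Sg t n ε).card + 1 = t := by exact_mod_cast c1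
    linarith
  rw [c1'] at h2
  have h16' : (16 : ℝ) ≤ t := by exact_mod_cast h16
  rw [pow_one] at h2 ⊢
  linarith

/-- powers depend on the exponent modulo `t - 1` only -/
theorem pow_eq_of_modEq {t : ℕ} (ht : t.Prime) {n c : ℕ} (hn : 0 < n) (hc : 0 < c)
    (h : n ≡ c [MOD t - 1]) (x : ZMod t) : x ^ n = x ^ c := by
  have : Fact t.Prime := ⟨ht⟩
  by_cases hx : x = 0
  · rw [hx, zero_pow hn.ne', zero_pow hc.ne']
  · have h1 : x ^ (t - 1) = 1 := ZMod.pow_card_sub_one_eq_one hx
    have h2 : ∀ m : ℕ, x ^ m = x ^ (m % (t - 1)) := by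
      intro m
      conv_lhs => rw [← Nat.mod_add_div m (t - 1), pow_add, pow_mul, h1, one_pow, mul_one]
    rw [h2 n, h2 c]
    have h3 : n % (t - 1) = c % (t - 1) := h
    rw [h3]

end Pool.Agent.W5h37.Cohn
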