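import Mathlib
import Pool.Agent.Y353.PS.Sup2
import Pool.Agent.Y353.PS.Page

/-!
Many primes `t` in a fixed residue class with a common small multiple of the numbers `t - 1`
(after Prachar, and Alford, Granville and Pomerance).
-/

set_option autoImplicit false

namespace Pool.Agent.W5h37.Cohn

open Finset Filter Topology
open Pool.Agent.Y353.PS (card_prods pi_lower ev_log page)

/-- the popular cofactor `k` -/
theorem popular {z K M β : ℕ} {c : ℝ} (D : Finset ℕ) (hpos : ∀ d ∈ D, 0 < d) (hM : 0 < M)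
    (hz : 2 ≤ z) (hK : 1 ≤ K) (hc : 0 < c) (hD : 0 < D.card) (b : ℕ → ℕ)
    (hb1 : ∀ d ∈ D, b d ≡ 1 [MOD d]) (hb2 : ∀ d ∈ D, b d ≡ β [MOD M])
    (h : ∀ d ∈ D, c / (M * d : ℕ) ≤ ∑ p ∈ (Ioc z (z ^ K)).filter
      (fun p => p.Prime ∧ p ≡ b d [MOD M * d]), (1 : ℝ) / p) :
    ∃ k : ℕ, 0 < k ∧ k ≤ z ^ K ∧ c * D.card / (M * (1 + K * Real.log z)) ≤
      ((D.filter (fun d => (1 + d * k).Prime ∧ z < 1 + d * k ∧
        1 + d * k ≤ z ^ K ∧ 1 + d * k ≡ β [MOD M])).card : ℝ) := by
  classical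
  set good : ℕ → ℕ → Prop := fun d k => (1 + d * k).Prime ∧ z < 1 + d * k ∧
        1 + d * k ≤ z ^ K ∧ 1 + d * k ≡ β [MOD M] with hgood
  set I := Icc 1 (z ^ K) with hI
  have hMR : (0 : ℝ) < M := by exact_mod_cast hM
  -- for each `d`
  have h1 : ∀ d ∈ D, c / M ≤ ∑ k ∈ I.filter (fun k => good d k), (1 : ℝ) / k := by
    intro d hd
    have hd0 := hpos d hd
    have hdR : (0 : ℝ) < d := by exact_mod_cast hd0
    obtain ⟨T, hT⟩ : ∃ T : Finset ℕ, T = (Ioc z (z ^ K)).filter
        (fun p => p.Prime ∧ p ≡ b d [MOD M * d]) := ⟨_, rfl⟩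
    have hd' := h d hd
    rw [← hT] at hd'
    have hex : ∀ p ∈ T, p = 1 + d * ((p - 1) / d) ∧ 0 < (p - 1) / d := by
      intro p hp
      rw [hT, mem_filter, mem_Ioc] at hp
      obtain ⟨⟨hp1, hp2⟩, hp3, hp4⟩ := hp
      have hp5 : 1 ≤ p := hp3.one_lt.le
      have e1 : p ≡ 1 [MOD d] := (Nat.ModEq.of_dvd (dvd_mul_left _ _) hp4).trans (hb1 d hd)
      have e2 : d ∣ p - 1 := (Nat.modEq_iff_dvd' hp5).1 e1.symm
      have e3 := Nat.mul_div_cancel' e2
      refine ⟨by omega, ?_⟩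
      rcases Nat.eq_zero_or_pos ((p - 1) / d) with h0 | h0
      · rw [h0] at e3; omega
      · exact h0
    have h2 : ∑ p ∈ T, (1 : ℝ) / p ≤
        ∑ k ∈ I.filter (fun k => good d k), (1 : ℝ) / (d * k) := by
      calc ∑ p ∈ T, (1 : ℝ) / p
          ≤ ∑ p ∈ T, (1 : ℝ) / (d * ((p - 1) / d : ℕ)) := by
            apply sum_le_sum
            intro p hp
            obtain ⟨g1, g2⟩ := hex p hp
            obtain ⟨k, hk⟩ : ∃ k, k = (p - 1) / d := ⟨_, rfl⟩
            rw [← hk] at g1 g2 ⊢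
            apply one_div_le_one_div_of_le
            · have : (0 : ℝ) < k := by exact_mod_cast g2
              positivity
            · have : ((d * k : ℕ) : ℝ) ≤ (p : ℝ) := by exact_mod_cast (by omega)
              push_cast at this ⊢
              exact this
        _ = ∑ k ∈ T.image (fun p => (p - 1) / d), (1 : ℝ) / (d * k) := by
            rw [sum_image]
            intro p hp p' hp' hpp
            rw [mem_coe] at hp hp'
            have g1 := (hex p hp).1
            have g2 := (hex p' hp').1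
            simp only at hpp
            rw [g1, g2, hpp]
        _ ≤ _ := by
            apply sum_le_sum_of_subset_of_nonneg
            · intro k hk
              rw [mem_image] at hk
              obtain ⟨p, hp, rfl⟩ := hk
              obtain ⟨g1, g2⟩ := hex p hp
              rw [hT, mem_filter, mem_Ioc] at hp
              obtain ⟨⟨hp1, hp2⟩, hp3, hp4⟩ := hp
              rw [mem_filter, hI, mem_Icc]
              refine ⟨⟨g2, ?_⟩, ?_⟩
              · exact (Nat.div_le_self _ _).trans ((Nat.sub_le _ _).trans hp2)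
              · rw [hgood]
                simp only
                rw [← g1]
                exact ⟨hp3, hp1, hp2, (Nat.ModEq.of_dvd (dvd_mul_right _ _) hp4).trans (hb2 d hd)⟩
            · intro k _ _
              positivity
    have h3 : ∑ k ∈ I.filter (fun k => good d k), (1 : ℝ) / (d * k) =
        (1 / d) * ∑ k ∈ I.filter (fun k => good d k), (1 : ℝ) / k := by
      rw [mul_sum]
      apply sum_congr rfl
      intro k _
      rw [div_mul_div_comm, one_mul]
    have h4 := hd'.trans h2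
    rw [h3] at h4
    have h5 : c / (M * d : ℕ) = (1 / d) * (c / M) := by
      push_cast
      field_simp
    rw [h5] at h4
    exact le_of_mul_le_mul_left h4 (by positivity)
  -- sum over `d`
  have h2 : D.card * (c / M) ≤ ∑ k ∈ I, (1 : ℝ) / k * ((D.filter (fun d => good d k)).card : ℝ) := by
    calc D.card * (c / M) = ∑ d ∈ D, (c / M) := by rw [sum_const, nsmul_eq_mul]
      _ ≤ ∑ d ∈ D, ∑ k ∈ I.filter (fun k => good d k), (1 : ℝ) / k := sum_le_sum h1
      _ = ∑ d ∈ D, ∑ k ∈ I, if good d k then (1 : ℝ) / k else 0 := by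
          apply sum_congr rfl
          intro d _
          rw [sum_filter]
      _ = ∑ k ∈ I, ∑ d ∈ D, if good d k then (1 : ℝ) / k else 0 := sum_comm
      _ = _ := by
          apply sum_congr rfl
          intro k _
          rw [← sum_filter, sum_const, nsmul_eq_mul, mul_comm]
  have hz0 : (0 : ℝ) < z := by exact_mod_cast (by omega : 0 < z)
  have hlogz : 0 < Real.log z := Real.log_pos (by exact_mod_cast (by omega : 1 < z))
  have h3 : ∑ k ∈ I, (1 : ℝ) / k ≤ 1 + K * Real.log z := by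
    have e2 := harmonic_le_one_add_log (z ^ K)
    have e3 : ((harmonic (z ^ K) : ℚ) : ℝ) = ∑ k ∈ Icc 1 (z ^ K), (1 : ℝ) / k := by
      rw [harmonic_eq_sum_Icc]
      push_cast
      apply sum_congr rfl
      intro k _
      rw [one_div]
    rw [e3] at e2
    have e4 : Real.log ((z ^ K : ℕ) : ℝ) = K * Real.log z := by
      rw [Nat.cast_pow, Real.log_pow]
    rw [e4] at e2
    exact e2
  by_contra hcon
  push Not at hcon
  have hS0 : 0 < 1 + K * Real.log z := by positivity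
  have h4 : ∀ k ∈ I, (1 : ℝ) / k * ((D.filter (fun d => good d k)).card : ℝ) ≤
      (1 : ℝ) / k * (c * D.card / (M * (1 + K * Real.log z))) := by
    intro k hk
    rw [hI, mem_Icc] at hk
    apply mul_le_mul_of_nonneg_left _ (by positivity)
    exact (hcon k hk.1 hk.2).le
  have h5 : 1 ∈ I := by
    rw [hI, mem_Icc]
    exact ⟨le_rfl, Nat.one_le_pow _ _ (by omega)⟩
  have h6 : ∑ k ∈ I, (1 : ℝ) / k * ((D.filter (fun d => good d k)).card : ℝ) <
      ∑ k ∈ I, (1 : ℝ) / k * (c * D.card / (M * (1 + K * Real.log z))) := by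
    apply sum_lt_sum h4
    refine ⟨1, h5, ?_⟩
    apply mul_lt_mul_of_pos_left _ (by norm_num)
    exact hcon 1 one_pos (Nat.one_le_pow _ _ (by omega))
  rw [← sum_mul] at h6
  have hDR : (0 : ℝ) < D.card := by exact_mod_cast hD
  have h7 : (∑ k ∈ I, (1 : ℝ) / k) * (c * D.card / (M * (1 + K * Real.log z))) ≤
      (1 + K * Real.log z) * (c * D.card / (M * (1 + K * Real.log z))) :=
    mul_le_mul_of_nonneg_right h3 (by positivity)
  have h8 : (1 + K * Real.log z) * (c * D.card / (M * (1 + K * Real.log z))) =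
      D.card * (c / M) := by
    field_simp
  linarith

/-- many primes `t` for which `t - 1` divides one number `lam` -/
theorem supply_of {z K q₁ y j M β : ℕ} {c : ℝ} (hz : 2 ≤ z) (hK : 1 ≤ K) (hc : 0 < c)
    (hM : 0 < M) (hMq : M < q₁) (hβ : β.Coprime M)
    (h : ∀ m b : ℕ, 0 < m → m ^ 16 ≤ z → ¬ q₁ ∣ m → b.Coprime m →
      c / (m.totient : ℝ) ≤
        ∑ p ∈ (Ioc z (z ^ K)).filter (fun p => p.Prime ∧ p ≡ b [MOD m]), (1 : ℝ) / p)
    (hy : (M * y ^ j) ^ 16 ≤ z) (hj : j + (M + 1) ≤ Nat.primeCounting y) :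
    ∃ (P : Finset ℕ) (lam : ℕ), (∀ t ∈ P, t.Prime ∧ z < t ∧ t ≤ z ^ K ∧ t - 1 ∣ lam ∧
        t ≡ β [MOD M]) ∧
      0 < lam ∧ lam ≤ z ^ K * 4 ^ y ∧
      c * ((Nat.primeCounting y - (M + 1)).choose j : ℕ) / (M * (1 + K * Real.log z)) ≤
        (P.card : ℝ) := by
  classical
  -- the prime to be left out
  obtain ⟨l, hl0, hl⟩ : ∃ l : ℕ, (l = 0 ∨ l.Prime) ∧
      ∀ m : ℕ, M.Coprime m → ¬ l ∣ m → ¬ q₁ ∣ M * m := by
    by_cases hex : ∃ l : ℕ, l.Prime ∧ l ∣ q₁ ∧ ¬ l ∣ M
    · obtain ⟨l, hl1, hl2, hl3⟩ := hex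
      refine ⟨l, Or.inr hl1, fun m _ hlm hdiv => ?_⟩
      have h1 : l ∣ M * m := hl2.trans hdiv
      rcases (Nat.Prime.dvd_mul hl1).1 h1 with h2 | h2
      · exact hl3 h2
      · exact hlm h2
    · push Not at hex
      refine ⟨0, Or.inl rfl, fun m hm _ hdiv => ?_⟩
      have hcop : Nat.Coprime q₁ m := by
        apply Nat.Coprime.symm
        apply Nat.coprime_of_dvd
        intro p hp hpm hpq
        have h1 := hex p hp hpq
        exact hp.one_lt.ne' (Nat.dvd_one.1 (hm ▸ Nat.dvd_gcd h1 hpm))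
      have h1 : q₁ ∣ M := hcop.dvd_of_dvd_mul_right hdiv
      have h2 := Nat.le_of_dvd hM h1
      omega
  -- the primes
  set Q := (Nat.primesLE y) \ (insert l M.primeFactors) with hQ
  have hQp : ∀ p ∈ Q, p.Prime := by
    intro p hp
    rw [hQ, Finset.mem_sdiff] at hp
    exact (Nat.mem_primesLE.1 hp.1).2
  have hQc : Nat.primeCounting y - (M + 1) ≤ Q.card := by
    have e1 : (Nat.primesLE y).card = Nat.primeCounting y := Nat.primesLE_card_eq_primeCounting _
    have e2 := Finset.le_card_sdiff (insert l M.primeFactors) (Nat.primesLE y)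
    have e3 : (insert l M.primeFactors).card ≤ M.primeFactors.card + 1 := card_insert_le _ _
    have e4 : M.primeFactors.card ≤ M := by
      have : M.primeFactors ⊆ Icc 1 M := by
        intro p hp
        rw [mem_Icc]
        exact ⟨(Nat.prime_of_mem_primeFactors hp).one_lt.le, Nat.le_of_mem_primeFactors hp⟩
      calc M.primeFactors.card ≤ (Icc 1 M).card := card_le_card this
        _ = M := by rw [Nat.card_Icc]; omega
    rw [← hQ] at e2
    omega
  set D := (Q.powersetCard j).image (fun D => ∏ p ∈ D, p) with hD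
  have hDc : (Nat.primeCounting y - (M + 1)).choose j ≤ D.card := by
    rw [hD, card_prods Q hQp]
    exact Nat.choose_le_choose j hQc
  have hDprop : ∀ d ∈ D, 0 < d ∧ M.Coprime d ∧ ¬ l ∣ d ∧ d ≤ y ^ j ∧ d ∣ ∏ p ∈ Q, p := by
    intro d hd
    rw [hD, mem_image] at hd
    obtain ⟨S, hS, rfl⟩ := hd
    rw [mem_powersetCard] at hS
    have hSp : ∀ p ∈ S, p.Prime ∧ p ≤ y ∧ ¬ p ∣ M ∧ p ≠ l := by
      intro p hp
      have := hS.1 hp
      rw [hQ, Finset.mem_sdiff, mem_insert] at this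
      have h2 := Nat.mem_primesLE.1 this.1
      push Not at this
      refine ⟨h2.2, h2.1, fun h3 => this.2.2 ?_, this.2.1⟩
      exact Nat.mem_primeFactors.2 ⟨h2.2, h3, hM.ne'⟩
    refine ⟨prod_pos fun p hp => (hSp p hp).1.pos, ?_, ?_, ?_, ?_⟩
    · apply Nat.Coprime.prod_right
      intro p hp
      exact ((Nat.Prime.coprime_iff_not_dvd (hSp p hp).1).2 (hSp p hp).2.2.1).symm
    · intro hl1
      rcases hl0 with h0 | h0
      · rw [h0] at hl1
        have h2 := Nat.eq_zero_of_zero_dvd hl1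
        have h3 : 0 < ∏ p ∈ S, p := prod_pos fun p hp => (hSp p hp).1.pos
        omega
      · obtain ⟨p, hp, hlp⟩ := (Nat.Prime.prime h0).exists_mem_finset_dvd hl1
        exact (hSp p hp).2.2.2 ((Nat.prime_dvd_prime_iff_eq h0 (hSp p hp).1).1 hlp).symm
    · calc ∏ p ∈ S, p ≤ ∏ p ∈ S, y := prod_le_prod' fun p hp => (hSp p hp).2.1
        _ = y ^ j := by rw [prod_const, hS.2]
    · exact prod_dvd_prod_of_subset _ _ _ hS.1
  have hjc : 0 < (Nat.primeCounting y - (M + 1)).choose j := Nat.choose_pos (by omega)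
  have hD0 : 0 < D.card := lt_of_lt_of_le hjc hDc
  -- the classes
  have hcr : ∀ d : ℕ, ∃ b : ℕ, M.Coprime d → b ≡ β [MOD M] ∧ b ≡ 1 [MOD d] := by
    intro d
    by_cases hd : M.Coprime d
    · exact ⟨Nat.chineseRemainder hd β 1, fun _ => (Nat.chineseRemainder hd β 1).2⟩
    · exact ⟨0, fun h => absurd h hd⟩
  choose b hb using hcr
  obtain ⟨k, hk0, hkz, hk⟩ := popular (z := z) (K := K) (M := M) (β := β) (c := c) D
    (fun d hd => (hDprop d hd).1) hM hz hK hc hD0 b
    (fun d hd => (hb d (hDprop d hd).2.1).2) (fun d hd => (hb d (hDprop d hd).2.1).1) (by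
      intro d hd
      obtain ⟨g1, g2, g3, g4, g5⟩ := hDprop d hd
      have hm0 : 0 < M * d := by positivity
      have h1 := h (M * d) (b d) hm0 ?_ (hl d g2 g3) ?_
      · refine le_trans ?_ h1
        apply div_le_div_of_nonneg_left hc.le
        · exact_mod_cast Nat.totient_pos.2 hm0
        · exact_mod_cast Nat.totient_le _
      · refine le_trans ?_ hy
        apply Nat.pow_le_pow_left
        exact Nat.mul_le_mul_left _ g4
      · obtain ⟨e1, e2⟩ := hb d g2
        apply Nat.Coprime.mul_right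
        · rw [Nat.Coprime, e1.gcd_eq]
          exact hβ
        · rw [Nat.Coprime, e2.gcd_eq]
          exact Nat.gcd_one_left _)
  set G := D.filter (fun d => (1 + d * k).Prime ∧ z < 1 + d * k ∧
        1 + d * k ≤ z ^ K ∧ 1 + d * k ≡ β [MOD M]) with hG
  refine ⟨G.image (fun d => 1 + d * k), k * ∏ p ∈ Q, p, ?_, ?_, ?_, ?_⟩
  · intro t ht
    rw [mem_image] at ht
    obtain ⟨d, hd, rfl⟩ := ht
    rw [hG, mem_filter] at hd
    obtain ⟨hd1, hd2, hd3, hd4, hd5⟩ := hd
    obtain ⟨g1, g2, g3, g4, g5⟩ := hDprop d hd1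
    refine ⟨hd2, hd3, hd4, ?_, hd5⟩
    have e1 : 1 + d * k - 1 = k * d := by
      rw [Nat.add_sub_cancel_left]; ring
    rw [e1]
    exact Nat.mul_dvd_mul_left _ g5
  · have h1 : 0 < ∏ p ∈ Q, p := prod_pos fun p hp => (hQp p hp).pos
    positivity
  · have h1 : ∏ p ∈ Q, p ≤ 4 ^ y := by
      have e1 : ∏ p ∈ Q, p ∣ primorial y := by
        unfold primorial
        apply prod_dvd_prod_of_subset
        intro p hp
        rw [hQ, Finset.mem_sdiff] at hp
        have h2 := Nat.mem_primesLE.1 hp.1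
        rw [mem_filter, mem_range]
        exact ⟨by omega, h2.2⟩
      exact (Nat.le_of_dvd (primorial_pos y) e1).trans (primorial_le_four_pow y)
    exact Nat.mul_le_mul hkz h1
  · rw [card_image_of_injOn]
    · refine le_trans ?_ hk
      have hz0 : (0 : ℝ) < z := by exact_mod_cast (by omega : 0 < z)
      have hlogz : 0 < Real.log z := Real.log_pos (by exact_mod_cast (by omega : 1 < z))
      have hMR : (0 : ℝ) < M := by exact_mod_cast hM
      apply div_le_div_of_nonneg_right _ (by positivity)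
      apply mul_le_mul_of_nonneg_left _ hc.le
      exact_mod_cast hDc
    · intro d _ d' _ hdd
      simp only at hdd
      exact Nat.eq_of_mul_eq_mul_right hk0 (by omega)

/-- many primes `t ≡ β (mod M)` for which `t - 1` divides one number `lam` -/
theorem supply : ∃ K : ℕ, 1 ≤ K ∧ ∀ M β : ℕ, 0 < M → β.Coprime M → ∃ z0 : ℕ, ∀ z : ℕ, z0 ≤ z →
      ∃ (P : Finset ℕ) (lam : ℕ),
      (∀ t ∈ P, t.Prime ∧ z < t ∧ t ≤ z ^ K ∧ t - 1 ∣ lam ∧ t ≡ β [MOD M]) ∧ 0 < lam ∧
      Real.log lam ≤ (Real.log z) ^ (19 / 10 : ℝ) / 2 ∧ (z : ℝ) ^ (1 / 100 : ℝ) ≤ (P.card : ℝ) := by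
  obtain ⟨K, c, hK, hc, hpage⟩ := page
  refine ⟨K, hK, fun M β hM hβ => ?_⟩
  obtain ⟨z1, hz1⟩ := hpage 1
  obtain ⟨n0, hn0⟩ := eventually_atTop.1 pi_lower
  have htL : Tendsto (fun z : ℕ => Real.log (z : ℝ)) atTop atTop :=
    Real.tendsto_log_atTop.comp tendsto_natCast_atTop_atTop
  have hMR : (0 : ℝ) < M := by exact_mod_cast hM
  have v1 := htL.eventually (ev_log 100 1 (by norm_num))
  have v3 : ∀ᶠ z : ℕ in atTop, 1000 + (n0 : ℝ) + 2 + 100 * M + 100 * Real.log M ≤ Real.log z :=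
    htL.eventually_ge_atTop _
  have v4 : ∀ᶠ z : ℕ in atTop, 4 * (M + 2) ≤ (Real.log z) ^ (11 / 100 : ℝ) :=
    ((tendsto_rpow_atTop (by norm_num)).comp htL).eventually_ge_atTop _
  have v5 : ∀ᶠ z : ℕ in atTop, 2 * ((K : ℝ) + 2) ≤ (Real.log z) ^ (1 / 10 : ℝ) :=
    ((tendsto_rpow_atTop (by norm_num)).comp htL).eventually_ge_atTop _
  have v6 : ∀ᶠ z : ℕ in atTop, (M * (1 + K) / c) * (Real.log z) ^ 2 ≤ (z : ℝ) ^ (1 / 200 : ℝ) := by
    have h := ((isLittleO_log_rpow_rpow_atTop (s := 1 / 200) 2 (by norm_num)).const_mul_left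
      (M * (1 + K) / c)).bound (show (0 : ℝ) < 1 by norm_num)
    filter_upwards [tendsto_natCast_atTop_atTop.eventually h, eventually_ge_atTop 1] with z hz hz1
    rw [one_mul, Real.norm_of_nonneg (Real.rpow_nonneg (Nat.cast_nonneg z) _)] at hz
    refine le_trans ?_ hz
    refine le_trans (le_of_eq ?_) (Real.le_norm_self _)
    norm_num
  obtain ⟨z2, hz2⟩ := eventually_atTop.1 (v1.and (v3.and (v4.and (v5.and v6))))
  refine ⟨max (max z1 z2) 2, fun z hz => ?_⟩
  simp only [max_le_iff] at hz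
  obtain ⟨⟨g1, g2⟩, g3⟩ := hz
  obtain ⟨w1, w3, w4, w5, w6⟩ := hz2 z g2
  obtain ⟨q₁, hq₁, hsum⟩ := hz1 z g1
  set L := Real.log (z : ℝ) with hL
  have hzR : (0 : ℝ) < z := by exact_mod_cast (by omega : 0 < z)
  have hn0R : (0 : ℝ) ≤ n0 := Nat.cast_nonneg _
  have hM1 : (1 : ℝ) ≤ M := by exact_mod_cast hM
  have hlogM : 0 ≤ Real.log M := Real.log_nonneg hM1
  have hL0 : 0 < L := by linarith
  have hL1 : 1 ≤ L := by linarith
  have hL1000 : 1000 ≤ L := by linarith
  have hzexp : (z : ℝ) = Real.exp L := (Real.exp_log hzR).symm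
  have hll : 1 ≤ Real.log L := by
    rw [Real.le_log_iff_exp_le hL0]
    have := Real.exp_one_lt_d9
    linarith
  have hll0 : 0 < Real.log L := by linarith
  rw [Real.rpow_one] at w1
  -- parameters
  set y := ⌊L ^ (9 / 5 : ℝ)⌋₊ with hy
  set j := ⌊L / (40 * Real.log L)⌋₊ with hj
  have hjle : (j : ℝ) ≤ L / (40 * Real.log L) := Nat.floor_le (by positivity)
  have hjge : L / (40 * Real.log L) - 1 ≤ (j : ℝ) := by
    have := Nat.lt_floor_add_one (L / (40 * Real.log L)); linarith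
  have hjlog : (j : ℝ) * Real.log L ≤ L / 40 := by
    calc (j : ℝ) * Real.log L ≤ L / (40 * Real.log L) * Real.log L :=
          mul_le_mul_of_nonneg_right hjle hll0.le
      _ = L / 40 := by field_simp
  have hjL : (j : ℝ) ≤ L / 40 := by
    calc (j : ℝ) = j * 1 := (mul_one _).symm
      _ ≤ j * Real.log L := mul_le_mul_of_nonneg_left hll (Nat.cast_nonneg _)
      _ ≤ L / 40 := hjlog
  have hyle : (y : ℝ) ≤ L ^ (9 / 5 : ℝ) := Nat.floor_le (by positivity)
  have hL95 : L ≤ L ^ (9 / 5 : ℝ) := by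
    calc L = L ^ (1 : ℝ) := (Real.rpow_one L).symm
      _ ≤ _ := Real.rpow_le_rpow_of_exponent_le hL1 (by norm_num)
  have hyge : L ^ (9 / 5 : ℝ) / 2 ≤ (y : ℝ) := by
    have := Nat.lt_floor_add_one (L ^ (9 / 5 : ℝ)); rw [← hy] at this
    linarith
  have hyn0 : n0 ≤ y := by
    have : (n0 : ℝ) ≤ y := by
      have h1 := Nat.lt_floor_add_one (L ^ (9 / 5 : ℝ)); rw [← hy] at h1
      linarith
    exact_mod_cast this
  have hpi := hn0 y hyn0
  have hy1 : (1 : ℝ) ≤ y := by linarith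
  have hL85 : L ≤ L ^ (8 / 5 : ℝ) := by
    calc L = L ^ (1 : ℝ) := (Real.rpow_one L).symm
      _ ≤ _ := Real.rpow_le_rpow_of_exponent_le hL1 (by norm_num)
  have hy85 : L ^ (8 / 5 : ℝ) * (M + 2) ≤ (y : ℝ) ^ (19 / 20 : ℝ) := by
    have h1 : (L ^ (9 / 5 : ℝ) / 2) ^ (19 / 20 : ℝ) ≤ (y : ℝ) ^ (19 / 20 : ℝ) :=
      Real.rpow_le_rpow (by positivity) hyge (by norm_num)
    refine le_trans ?_ h1
    rw [Real.div_rpow (by positivity) (by norm_num), ← Real.rpow_mul hL0.le,
      le_div_iff₀ (by positivity)]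
    have h2 : (2 : ℝ) ^ (19 / 20 : ℝ) ≤ 4 := by
      calc (2 : ℝ) ^ (19 / 20 : ℝ) ≤ 2 ^ (1 : ℝ) :=
            Real.rpow_le_rpow_of_exponent_le (by norm_num) (by norm_num)
        _ ≤ 4 := by norm_num
    calc L ^ (8 / 5 : ℝ) * (M + 2) * 2 ^ (19 / 20 : ℝ) ≤ L ^ (8 / 5 : ℝ) * (M + 2) * 4 :=
          mul_le_mul_of_nonneg_left h2 (by positivity)
      _ = L ^ (8 / 5 : ℝ) * (4 * (M + 2)) := by ring
      _ ≤ L ^ (8 / 5 : ℝ) * L ^ (11 / 100 : ℝ) :=
          mul_le_mul_of_nonneg_left w4 (by positivity)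
      _ = L ^ (9 / 5 * (19 / 20) : ℝ) := by
          rw [← Real.rpow_add hL0]; norm_num
  set R := Nat.primeCounting y - (M + 1) with hR
  have hL85' : (M + 1 : ℝ) ≤ L ^ (8 / 5 : ℝ) * (M + 1) := by
    have : (1 : ℝ) ≤ L ^ (8 / 5 : ℝ) := by linarith
    calc (M + 1 : ℝ) = 1 * (M + 1) := (one_mul _).symm
      _ ≤ _ := mul_le_mul_of_nonneg_right this (by positivity)
  have hM3 : M + 1 ≤ Nat.primeCounting y := by
    have h1 : (0 : ℝ) ≤ L ^ (8 / 5 : ℝ) := by positivity
    have : ((M + 1 : ℕ) : ℝ) ≤ Nat.primeCounting y := by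
      push_cast
      nlinarith
    exact_mod_cast this
  have hRR : L ^ (8 / 5 : ℝ) ≤ (R : ℝ) := by
    rw [hR, Nat.cast_sub hM3]
    push_cast
    nlinarith
  have hjM : 2 * j ≤ R := by
    have : ((2 * j : ℕ) : ℝ) ≤ R := by push_cast; linarith
    exact_mod_cast this
  -- the exceptional modulus
  have hq1' : M < q₁ := by
    have h1 : (M : ℝ) < q₁ := by
      rw [pow_one] at hq₁
      refine lt_of_le_of_lt ?_ hq₁
      linarith
    exact_mod_cast h1
  have hlog4 : Real.log 4 ≤ 2 := by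
    have h1 : Real.log 4 = 2 * Real.log 2 := by
      rw [show (4 : ℝ) = 2 ^ 2 by norm_num, Real.log_pow]; norm_num
    have := Real.log_two_lt_d9
    linarith
  have hlogy : Real.log y ≤ 9 / 5 * Real.log L := by
    have := Real.log_le_log (by linarith) hyle
    rwa [Real.log_rpow hL0] at this
  have hcond : (M * y ^ j) ^ 16 ≤ z := by
    have h1 : (((M * y ^ j) ^ 16 : ℕ) : ℝ) ≤ (z : ℝ) := by
      have hy0 : (0 : ℝ) < y := by linarith
      have hpos : 0 < (M * y ^ j) ^ 16 := by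
        have : 0 < y := by exact_mod_cast hy0
        positivity
      rw [← Real.log_le_log_iff (by exact_mod_cast hpos) hzR]
      push_cast
      rw [Real.log_pow, Real.log_mul (by positivity) (by positivity), Real.log_pow]
      have h2 : (j : ℝ) * Real.log y ≤ 9 / 5 * (L / 40) := by
        calc (j : ℝ) * Real.log y ≤ j * (9 / 5 * Real.log L) :=
              mul_le_mul_of_nonneg_left hlogy (Nat.cast_nonneg _)
          _ = 9 / 5 * (j * Real.log L) := by ring
          _ ≤ 9 / 5 * (L / 40) := by linarith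
      push_cast
      linarith
    exact_mod_cast h1
  obtain ⟨P, lam, p1, p2, p4, p5⟩ := supply_of g3 hK hc hM hq1' hβ hsum hcond (by omega)
  refine ⟨P, lam, p1, p2, ?_, ?_⟩
  · have h1 : (lam : ℝ) ≤ (z : ℝ) ^ K * 4 ^ y := by exact_mod_cast p4
    have h2 : Real.log lam ≤ K * L + y * Real.log 4 := by
      have := Real.log_le_log (by exact_mod_cast p2) h1
      rw [Real.log_mul (by positivity) (by positivity), Real.log_pow, Real.log_pow, ← hL] at this
      linarith
    have h3 : L ^ (19 / 10 : ℝ) = L ^ (9 / 5 : ℝ) * L ^ (1 / 10 : ℝ) := by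
      rw [← Real.rpow_add hL0]; norm_num
    have h4 : (y : ℝ) * Real.log 4 ≤ 2 * L ^ (9 / 5 : ℝ) := by
      calc (y : ℝ) * Real.log 4 ≤ L ^ (9 / 5 : ℝ) * 2 :=
            mul_le_mul hyle hlog4 (Real.log_nonneg (by norm_num)) (by positivity)
        _ = _ := by ring
    have h5 : (K : ℝ) * L ≤ K * L ^ (9 / 5 : ℝ) :=
      mul_le_mul_of_nonneg_left hL95 (Nat.cast_nonneg _)
    have h8 : ((K : ℝ) + 2) * L ^ (9 / 5 : ℝ) ≤ L ^ (19 / 10 : ℝ) / 2 := by
      rw [h3]
      have : ((K : ℝ) + 2) * L ^ (9 / 5 : ℝ) ≤ (L ^ (1 / 10 : ℝ) / 2) * L ^ (9 / 5 : ℝ) := by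
        apply mul_le_mul_of_nonneg_right _ (by positivity)
        linarith
      linarith
    linarith
  · refine le_trans ?_ p5
    have h1 := Pool.Agent.TH194.BL.choose_lower' hjM
    have h2 : (z : ℝ) ^ (3 / 200 : ℝ) / L ≤ ((R.choose j : ℕ) : ℝ) := by
      refine le_trans ?_ h1
      have h3 : L ^ (3 / 5 : ℝ) ≤ (R : ℝ) / (2 * j) ∨ j = 0 := by
        rcases Nat.eq_zero_or_pos j with h0 | h0
        · exact Or.inr h0
        · left
          have hj0 : (0 : ℝ) < j := by exact_mod_cast h0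
          rw [le_div_iff₀ (by positivity)]
          calc L ^ (3 / 5 : ℝ) * (2 * j) ≤ L ^ (3 / 5 : ℝ) * L :=
                mul_le_mul_of_nonneg_left (by linarith) (by positivity)
            _ = L ^ (8 / 5 : ℝ) := by
                nth_rewrite 2 [← Real.rpow_one L]
                rw [← Real.rpow_add hL0]; norm_num
            _ ≤ R := hRR
      have h4 : Real.exp (3 / 5 * Real.log L * j) ≤ ((R : ℝ) / (2 * j)) ^ j := by
        rcases h3 with h3 | h3
        · calc Real.exp (3 / 5 * Real.log L * j) = (L ^ (3 / 5 : ℝ)) ^ j := by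
                rw [Real.rpow_def_of_pos hL0, ← Real.exp_nat_mul]
                congr 1; ring
            _ ≤ _ := pow_le_pow_left₀ (by positivity) h3 j
        · rw [h3]; simp
      refine le_trans ?_ h4
      rw [hzexp, ← Real.exp_mul]
      nth_rewrite 2 [← Real.exp_log hL0]
      rw [← Real.exp_sub, Real.exp_le_exp]
      have h5 : 3 / 5 * Real.log L * (L / (40 * Real.log L) - 1) ≤ 3 / 5 * Real.log L * j :=
        mul_le_mul_of_nonneg_left hjge (by positivity)
      have h6 : 3 / 5 * Real.log L * (L / (40 * Real.log L) - 1) = 3 / 200 * L - 3 / 5 * Real.log L := by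
        field_simp
        ring
      linarith
    have hS0 : 0 < M * (1 + K * L) := by positivity
    rw [le_div_iff₀ hS0]
    have h3 : (z : ℝ) ^ (3 / 200 : ℝ) = (z : ℝ) ^ (1 / 100 : ℝ) * (z : ℝ) ^ (1 / 200 : ℝ) := by
      rw [← Real.rpow_add hzR]; norm_num
    have h4 : c * ((z : ℝ) ^ (3 / 200 : ℝ) / L) ≤ c * ((R.choose j : ℕ) : ℝ) :=
      mul_le_mul_of_nonneg_left h2 hc.le
    refine le_trans ?_ h4
    rw [h3]
    have h5 : (M * (1 + K * L)) * L ≤ c * (z : ℝ) ^ (1 / 200 : ℝ) := by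
      have a1 : (M * (1 + K) / c) * L ^ 2 * c ≤ (z : ℝ) ^ (1 / 200 : ℝ) * c :=
        mul_le_mul_of_nonneg_right w6 hc.le
      have a2 : (M * (1 + K) / c) * L ^ 2 * c = M * (1 + K) * L ^ 2 := by field_simp
      rw [a2] at a1
      have hKR : (0 : ℝ) ≤ K := Nat.cast_nonneg K
      have a3 : 1 + (K : ℝ) * L ≤ (1 + K) * L := by
        rw [add_mul, one_mul]
        linarith
      calc (M * (1 + K * L)) * L ≤ (M * ((1 + K) * L)) * L := by
            apply mul_le_mul_of_nonneg_right _ hL0.le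
            exact mul_le_mul_of_nonneg_left a3 hMR.le
        _ = M * (1 + K) * L ^ 2 := by ring
        _ ≤ (z : ℝ) ^ (1 / 200 : ℝ) * c := a1
        _ = _ := mul_comm _ _
    have h6 : 0 < (z : ℝ) ^ (1 / 100 : ℝ) := by positivity
    calc (z : ℝ) ^ (1 / 100 : ℝ) * (M * (1 + K * L)) =
        (z : ℝ) ^ (1 / 100 : ℝ) * ((M * (1 + K * L)) * L) / L := by field_simp
      _ ≤ (z : ℝ) ^ (1 / 100 : ℝ) * (c * (z : ℝ) ^ (1 / 200 : ℝ)) / L := by gcongr
      _ = _ := by ring

end Pool.Agent.W5h37.Cohn
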