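import Mathlib
import Pool.Agent.W5h37.Cohn.Sup
import Pool.Agent.TH194.BL.LskG

/-!
The larger sieve step: integer points for which some odd exponent `n` satisfies local conditions
at all primes `t` of a residue class.
-/

set_option autoImplicit false

namespace Pool.Agent.W5h37.Cohn

open Finset Filter Topology
open Pool.Agent.TH194.BL (choose_lower')

/-- the parameters for `L = log N`, `z = ⌊exp √L⌋` -/
structure Par (k K z₀ : ℕ) (η L : ℝ) (z : ℕ) : Prop where
  l1 : 1 ≤ L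
  zle : (z : ℝ) ≤ Real.exp (√L)
  zge : √L - 1 ≤ Real.log z
  z0 : z₀ ≤ z
  l0 : 1 ≤ Real.log z
  jz : 2 / η * √L ≤ (z : ℝ) ^ (1 / 200 : ℝ)
  jz2 : 2 * √L ≤ (z : ℝ) ^ (1 / 100 : ℝ)
  fin : L ^ (19 / 20 : ℝ) / 2 + k * Real.log 12 + √L ≤ (1 / (400 * K) - 1 / (500 * K)) * L

theorem ev_par (k K z₀ : ℕ) (hK : 1 ≤ K) {η : ℝ} (hη : 0 < η) : ∀ᶠ L : ℝ in atTop,
    Par k K z₀ η L ⌊Real.exp (√L)⌋₊ := by
  have hsq : Tendsto (fun L : ℝ => √L) atTop atTop := Real.tendsto_sqrt_atTop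
  have hex : Tendsto (fun L : ℝ => Real.exp (√L)) atTop atTop := Real.tendsto_exp_atTop.comp hsq
  have hfl : Tendsto (fun L : ℝ => ⌊Real.exp (√L)⌋₊) atTop atTop := tendsto_nat_floor_atTop.comp hex
  have hKR : (1 : ℝ) ≤ K := by exact_mod_cast hK
  have e1 := eventually_ge_atTop (max 1 ((64 : ℝ)))
  have e2 : ∀ᶠ L : ℝ in atTop, (2 : ℝ) ≤ Real.exp (√L) := hex.eventually_ge_atTop _
  have e3 := hfl.eventually (eventually_ge_atTop z₀)
  -- `C √L ≤ z ^ (1/200)`
  have e5 : ∀ᶠ L : ℝ in atTop, 2 * (2 / η + 2) * √L ≤ Real.exp (√L / 200) := by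
    have h := (Real.tendsto_exp_div_pow_atTop 1).comp (hsq.atTop_div_const (show (0 : ℝ) < 200 by norm_num))
    have h2 := h.eventually_ge_atTop (400 * (2 / η + 2))
    filter_upwards [h2, eventually_gt_atTop 0] with L hL hL0
    simp only [Function.comp_apply, pow_one] at hL
    have : 0 < √L := Real.sqrt_pos.2 hL0
    rw [le_div_iff₀ (by positivity)] at hL
    calc 2 * (2 / η + 2) * √L = 400 * (2 / η + 2) * (√L / 200) := by ring
      _ ≤ _ := hL
  have e7 : ∀ᶠ L : ℝ in atTop, 40000 * (K : ℝ) * (k + 4) ≤ L ^ (1 / 80 : ℝ) :=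
    (tendsto_rpow_atTop (by norm_num)).eventually_ge_atTop _
  filter_upwards [e1, e2, e3, e5, e7] with L h1 h2 h3 h5 h7
  have hL1 : 1 ≤ L := (le_max_left _ _).trans h1
  have hL64 : 64 ≤ L := (le_max_right _ _).trans h1
  have hL0 : 0 < L := by linarith
  set z := ⌊Real.exp (√L)⌋₊ with hz
  have hs8 : 8 ≤ √L := by
    rw [Real.le_sqrt (by norm_num) hL0.le]; norm_num; exact hL64
  have hsL : √L * √L = L := Real.mul_self_sqrt hL0.le
  have hsleL : √L ≤ L := by nlinarith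
  have hzle : (z : ℝ) ≤ Real.exp (√L) := Nat.floor_le (Real.exp_nonneg _)
  have hzge : Real.exp (√L) / 2 ≤ (z : ℝ) := by
    have := Nat.lt_floor_add_one (Real.exp (√L))
    rw [← hz] at this
    linarith
  have hz0 : (0 : ℝ) < z := by linarith [Real.exp_pos (√L)]
  have hlogz : √L - 1 ≤ Real.log z := by
    have h8 := Real.log_le_log (by positivity) hzge
    rw [Real.log_div (Real.exp_pos _).ne' (by norm_num), Real.log_exp] at h8
    have := Real.log_two_lt_d9
    linarith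
  have hzp : Real.exp (√L / 200) / 2 ≤ (z : ℝ) ^ (1 / 200 : ℝ) := by
    calc Real.exp (√L / 200) / 2 ≤ Real.exp (√L / 200) / 2 ^ (1 / 200 : ℝ) := by
          apply div_le_div_of_nonneg_left (Real.exp_nonneg _) (by positivity)
          calc (2 : ℝ) ^ (1 / 200 : ℝ) ≤ 2 ^ (1 : ℝ) :=
                Real.rpow_le_rpow_of_exponent_le (by norm_num) (by norm_num)
            _ = 2 := Real.rpow_one 2
      _ = (Real.exp (√L) / 2) ^ (1 / 200 : ℝ) := by
          rw [Real.div_rpow (Real.exp_nonneg _) (by norm_num), ← Real.exp_mul]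
          congr 2; ring
      _ ≤ _ := Real.rpow_le_rpow (by positivity) hzge (by norm_num)
  have hz1 : (1 : ℝ) ≤ z := by
    have : (1 : ℝ) ≤ Real.exp (√L) / 2 := by linarith
    linarith
  have h5' : (2 / η + 2) * √L ≤ (z : ℝ) ^ (1 / 200 : ℝ) := by
    have : 2 * (2 / η + 2) * √L = 2 * ((2 / η + 2) * √L) := by ring
    linarith
  have h5a : 0 ≤ 2 / η * √L := by positivity
  refine ⟨hL1, hzle, hlogz, h3, by linarith, by linarith, ?_, ?_⟩
  · have : (z : ℝ) ^ (1 / 200 : ℝ) ≤ (z : ℝ) ^ (1 / 100 : ℝ) :=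
      Real.rpow_le_rpow_of_exponent_le hz1 (by norm_num)
    linarith
  · -- the final inequality
    have hq0 : 0 < L ^ (1 / 80 : ℝ) := by positivity
    have f1 : L ^ (19 / 20 : ℝ) ≤ L ^ (39 / 40 : ℝ) :=
      Real.rpow_le_rpow_of_exponent_le hL1 (by norm_num)
    have f3 : L = L ^ (39 / 40 : ℝ) * (L ^ (1 / 80 : ℝ) * L ^ (1 / 80 : ℝ)) := by
      rw [← Real.rpow_add hL0, ← Real.rpow_add hL0]; norm_num
    have f4 : 1 ≤ L ^ (39 / 40 : ℝ) := Real.one_le_rpow hL1 (by norm_num)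
    have f5 : √L ≤ L ^ (39 / 40 : ℝ) := by
      rw [Real.sqrt_eq_rpow]
      exact Real.rpow_le_rpow_of_exponent_le hL1 (by norm_num)
    have f8 : (k : ℝ) * Real.log 12 ≤ 3 * k * L ^ (39 / 40 : ℝ) := by
      have a1 : Real.log 12 ≤ 3 := by
        rw [Real.log_le_iff_le_exp (by norm_num)]
        have := Real.exp_one_gt_d9
        have h3 : Real.exp 3 = Real.exp 1 ^ 3 := by rw [← Real.exp_nat_mul]; norm_num
        rw [h3]
        calc (12 : ℝ) ≤ 2.7 ^ 3 := by norm_num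
          _ ≤ Real.exp 1 ^ 3 := pow_le_pow_left₀ (by norm_num) (by linarith) 3
      have hk0 : (0 : ℝ) ≤ k := Nat.cast_nonneg k
      calc (k : ℝ) * Real.log 12 ≤ k * 3 := mul_le_mul_of_nonneg_left a1 hk0
        _ = 3 * k * 1 := by ring
        _ ≤ _ := mul_le_mul_of_nonneg_left f4 (by positivity)
    have f10 : (4 * (k : ℝ) + 4) * L ^ (39 / 40 : ℝ) ≤ (1 / (400 * K) - 1 / (500 * K)) * L := by
      have a1 : (1 : ℝ) / (400 * K) - 1 / (500 * K) = 1 / (2000 * K) := by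
        field_simp; norm_num
      rw [a1]
      have a2 : (1 : ℝ) / (2000 * K) * L = (L ^ (39 / 40 : ℝ)) *
          ((L ^ (1 / 80 : ℝ) * L ^ (1 / 80 : ℝ)) / (2000 * K)) := by
        nth_rewrite 1 [f3]
        ring
      rw [a2, mul_comm]
      apply mul_le_mul_of_nonneg_left _ (by positivity)
      rw [le_div_iff₀ (by positivity)]
      have hk0 : (0 : ℝ) ≤ k := Nat.cast_nonneg k
      have a3 : 1 ≤ L ^ (1 / 80 : ℝ) := Real.one_le_rpow hL1 (by norm_num)
      calc (4 * (k : ℝ) + 4) * (2000 * K) ≤ 40000 * (K : ℝ) * (k + 4) := by nlinarith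
        _ ≤ L ^ (1 / 80 : ℝ) := h7
        _ = L ^ (1 / 80 : ℝ) * 1 := (mul_one _).symm
        _ ≤ _ := mul_le_mul_of_nonneg_left a3 hq0.le
    have f11 : 0 ≤ (k : ℝ) * L ^ (39 / 40 : ℝ) := by positivity
    nlinarith

/-- the sieve step -/
theorem sieve : ∃ K : ℕ, 1 ≤ K ∧ ∀ (k : ℕ) (η : ℝ) (M β : ℕ), 0 < η → 0 < M → β.Coprime M →
    ∃ N₀ : ℕ, ∀ N : ℕ, N₀ ≤ N → ∀ Om : ℕ → (t : ℕ) → Finset (Fin k → ZMod t),
    (∀ n t : ℕ, Odd n → t.Prime → 16 ≤ t → t ≡ β [MOD M] →
      ((Om n t).card : ℝ) ≤ (1 - η) * (t : ℝ) ^ k) →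
    (∀ n c t : ℕ, Odd n → Odd c → t.Prime → n ≡ c [MOD t - 1] → Om n t ⊆ Om c t) →
    ∀ a : Fin k → ℕ, ∀ E : Finset (Fin k → ℕ),
    (∀ A ∈ E, (∀ i, A i ∈ Ioc (a i) (a i + N)) ∧ ∃ n : ℕ, Odd n ∧ ∀ t : ℕ, t.Prime →
      t ≡ β [MOD M] → 16 ≤ t → (fun i => ((A i : ℕ) : ZMod t)) ∈ Om n t) →
    (E.card : ℝ) ≤ (N : ℝ) ^ ((k : ℝ) - 1 / (500 * K)) := by
  classical
  obtain ⟨K, hK, hsup⟩ := supply
  refine ⟨K, hK, fun k η M β hη hM hβ => ?_⟩
  obtain ⟨z₀, hz₀⟩ := hsup M β hM hβ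
  have hev := (Real.tendsto_log_atTop.comp tendsto_natCast_atTop_atTop).eventually
    (ev_par k K (max z₀ 16) hK hη)
  obtain ⟨N₀, hN₀⟩ := eventually_atTop.1 hev
  refine ⟨max N₀ 1, fun N hN Om hOm hper a E hE => ?_⟩
  have hN1 : 1 ≤ N := (le_max_right _ _).trans hN
  obtain ⟨z, hz⟩ : ∃ z : ℕ, z = ⌊Real.exp (√(Real.log N))⌋₊ := ⟨_, rfl⟩
  have hp : Par k K (max z₀ 16) η (Real.log N) z := by
    rw [hz]; exact hN₀ N ((le_max_left _ _).trans hN)
  have hKR : (1 : ℝ) ≤ K := by exact_mod_cast hK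
  set L := Real.log N with hL
  have hNR : (0 : ℝ) < N := by exact_mod_cast hN1
  have hNexp : (N : ℝ) = Real.exp L := (Real.exp_log hNR).symm
  have hL0 : 0 < L := by linarith [hp.l1]
  have hsL : √L * √L = L := Real.mul_self_sqrt hL0.le
  have hz2 : 16 ≤ z := (le_max_right _ _).trans hp.z0
  have hzR : (0 : ℝ) < z := by exact_mod_cast (by omega : 0 < z)
  have hlogz : Real.log z ≤ √L := by
    have := Real.log_le_log hzR hp.zle
    rwa [Real.log_exp] at this
  obtain ⟨P, lam, p1, p2, p4, p5⟩ := hz₀ z ((le_max_left _ _).trans hp.z0)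
  have hlam2 : Even lam := by
    have h1 : (0 : ℝ) < P.card := lt_of_lt_of_le (by positivity) p5
    have h2 : 0 < P.card := by exact_mod_cast h1
    obtain ⟨t, ht⟩ := card_pos.1 h2
    obtain ⟨t1, t2, t3, t4, t5⟩ := p1 t ht
    have h3 : Odd t := t1.odd_of_ne_two (by omega)
    obtain ⟨r, hr⟩ := h3
    exact even_iff_two_dvd.2 (dvd_trans ⟨r, by omega⟩ t4)
  -- j and Q
  set j := ⌊√L / (2 * K)⌋₊ with hj
  have hjle : (j : ℝ) ≤ √L / (2 * K) := Nat.floor_le (by positivity)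
  have hjge : √L / (2 * K) - 1 ≤ (j : ℝ) := by
    have := Nat.lt_floor_add_one (√L / (2 * K)); linarith
  have hjL : (j : ℝ) ≤ √L := hjle.trans (div_le_self (Real.sqrt_nonneg _) (by linarith))
  have hjK : (j : ℝ) * (2 * K) ≤ √L := by
    rwa [le_div_iff₀ (by positivity)] at hjle
  set Q := Nat.sqrt N with hQ
  have hQ2 : Q ^ 2 ≤ N := by rw [sq]; exact Nat.sqrt_le N
  have hprod : ∀ D ∈ P.powersetCard j, ∏ t ∈ D, t ≤ Q := by
    intro D hD
    rw [mem_powersetCard] at hD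
    rw [hQ, Nat.le_sqrt, ← sq]
    have h1 : ∏ t ∈ D, t ≤ z ^ (K * j) := by
      calc ∏ t ∈ D, t ≤ ∏ t ∈ D, z ^ K := prod_le_prod' fun t ht => (p1 t (hD.1 ht)).2.2.1
        _ = z ^ (K * j) := by rw [prod_const, hD.2, pow_mul]
    have h2 : ((z ^ (K * j)) ^ 2 : ℕ) ≤ N := by
      have h3 : (((z ^ (K * j)) ^ 2 : ℕ) : ℝ) ≤ N := by
        rw [← Real.log_le_log_iff (by positivity) hNR]
        push_cast
        rw [Real.log_pow, Real.log_pow, ← hL]
        push_cast
        calc (2 : ℝ) * (K * j * Real.log z) = (j * (2 * K)) * Real.log z := by ring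
          _ ≤ √L * √L := mul_le_mul hjK hlogz (by linarith [hp.l0]) (Real.sqrt_nonneg _)
          _ = L := hsL
      exact_mod_cast h3
    exact (Nat.pow_le_pow_left h1 2).trans h2
  have hPc : (z : ℝ) ^ (1 / 100 : ℝ) ≤ (P.card : ℝ) := p5
  have hjP : 2 * j ≤ P.card := by
    have : ((2 * j : ℕ) : ℝ) ≤ P.card := by
      push_cast
      have := hp.jz2
      linarith
    exact_mod_cast this
  -- the classes of exponents
  set Z : ℕ → Finset (Fin k → ℕ) := fun c => E.filter (fun A => ∃ n : ℕ, Odd n ∧ n % lam = c ∧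
    ∀ t : ℕ, t.Prime → t ≡ β [MOD M] → 16 ≤ t → (fun i => ((A i : ℕ) : ZMod t)) ∈ Om n t) with hZ
  have hone : ∀ c ∈ range lam, ((Z c).card : ℝ) * ((P.card.choose j : ℝ) * η ^ j) ≤
      (12 * (N : ℝ)) ^ k := by
    intro c _
    by_cases hc : Odd c
    · apply Pool.Agent.TH194.BL.G.lskG hη k N Q j a P (Z c) (fun t => Om c t) hN1 hQ2
        (fun t ht => (p1 t ht).1)
      · intro A hA i
        rw [hZ, mem_filter] at hA
        exact (hE A hA.1).1 i
      · intro t ht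
        obtain ⟨t1, t2, t3, t4, t5⟩ := p1 t ht
        exact hOm c t hc t1 (by omega) t5
      · intro A hA t ht
        obtain ⟨t1, t2, t3, t4, t5⟩ := p1 t ht
        rw [hZ, mem_filter] at hA
        obtain ⟨hA1, n, hn, hnc, hA2⟩ := hA
        have h1 : n ≡ c [MOD lam] := by
          rw [← hnc]; exact (Nat.mod_modEq n lam).symm
        exact hper n c t hn hc t1 (h1.of_dvd t4) (hA2 t t1 t5 (by omega))
      · exact hprod
    · have h1 : Z c = ∅ := by
        rw [hZ, filter_eq_empty_iff]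
        rintro A _ ⟨n, hn, hnc, -⟩
        apply hc
        rw [← hnc]
        rcases hlam2 with ⟨r, hr⟩
        rw [Nat.odd_iff] at hn ⊢
        have h2 := Nat.mod_mod_of_dvd n (show 2 ∣ lam from ⟨r, by omega⟩)
        omega
      rw [h1]
      simp only [card_empty, Nat.cast_zero, zero_mul]
      positivity
  have hcov : E ⊆ (range lam).biUnion Z := by
    intro A hA
    obtain ⟨-, n, hn, h2⟩ := hE A hA
    rw [mem_biUnion]
    refine ⟨n % lam, ?_, ?_⟩
    · rw [mem_range]; exact Nat.mod_lt _ p2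
    · rw [hZ, mem_filter]
      exact ⟨hA, n, hn, rfl, h2⟩
  have hch := choose_lower' hjP
  have hlamR : (0 : ℝ) < lam := by exact_mod_cast p2
  have hllam : Real.log lam ≤ L ^ (19 / 20 : ℝ) / 2 := by
    refine p4.trans ?_
    have h1 : Real.log z ^ (19 / 10 : ℝ) ≤ √L ^ (19 / 10 : ℝ) :=
      Real.rpow_le_rpow (by linarith [hp.l0]) hlogz (by norm_num)
    have h2 : √L ^ (19 / 10 : ℝ) = L ^ (19 / 20 : ℝ) := by
      rw [Real.sqrt_eq_rpow, ← Real.rpow_mul hL0.le]; norm_num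
    rw [h2] at h1
    linarith
  have hden : Real.exp (Real.log z / 200 * j) ≤ (P.card.choose j : ℝ) * η ^ j := by
    have h1 : Real.exp (Real.log z / 200 * j) = ((z : ℝ) ^ (1 / 200 : ℝ)) ^ j := by
      rw [Real.rpow_def_of_pos hzR, ← Real.exp_nat_mul]
      congr 1; ring
    have h2 : ((P.card : ℝ) / (2 * j) * η) ^ j ≤ (P.card.choose j : ℝ) * η ^ j := by
      rw [mul_pow]
      exact mul_le_mul_of_nonneg_right hch (by positivity)
    rw [h1]
    refine le_trans ?_ h2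
    rcases Nat.eq_zero_or_pos j with h0 | h0
    · rw [h0]; simp
    · apply pow_le_pow_left₀ (by positivity)
      have hj0 : (0 : ℝ) < j := by exact_mod_cast h0
      rw [div_mul_eq_mul_div, le_div_iff₀ (by positivity)]
      have h3 : 2 / η * (j : ℝ) ≤ (z : ℝ) ^ (1 / 200 : ℝ) := by
        refine le_trans ?_ hp.jz
        exact mul_le_mul_of_nonneg_left hjL (by positivity)
      have h4 : 2 * (j : ℝ) = η * (2 / η * (j : ℝ)) := by field_simp
      calc (z : ℝ) ^ (1 / 200 : ℝ) * (2 * j) = (z : ℝ) ^ (1 / 200 : ℝ) * (2 / η * (j : ℝ)) * η := by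
            rw [h4]; ring
        _ ≤ (z : ℝ) ^ (1 / 200 : ℝ) * (z : ℝ) ^ (1 / 200 : ℝ) * η := by
            apply mul_le_mul_of_nonneg_right _ hη.le
            exact mul_le_mul_of_nonneg_left h3 (by positivity)
        _ = (z : ℝ) ^ (1 / 100 : ℝ) * η := by rw [← Real.rpow_add hzR]; norm_num
        _ ≤ P.card * η := mul_le_mul_of_nonneg_right hPc hη.le
  have hlow : L / (400 * K) - √L ≤ Real.log z / 200 * j := by
    have a1 : (√L - 1) / 200 * (√L / (2 * K) - 1) ≤ Real.log z / 200 * j := by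
      rcases le_total 0 (√L / (2 * K) - 1) with h0 | h0
      · apply mul_le_mul _ hjge h0 (by linarith [hp.l0])
        have := hp.zge
        linarith
      · have h1 : 0 ≤ Real.log z / 200 * j := by
          have := hp.l0
          positivity
        have h2 : 0 ≤ (√L - 1) / 200 := by
          have : 1 ≤ √L := by
            rw [Real.one_le_sqrt]; exact hp.l1
          linarith
        nlinarith
    have a2 : (√L - 1) / 200 * (√L / (2 * K) - 1) =
        L / (400 * K) - (√L / 200 + √L / (400 * K) - 1 / 200) := by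
      have hid : ∀ s Kr : ℝ, Kr ≠ 0 → (s - 1) / 200 * (s / (2 * Kr) - 1) =
          s * s / (400 * Kr) - (s / 200 + s / (400 * Kr) - 1 / 200) := by
        intro s Kr hKr
        field_simp
        ring
      have h1 := hid (√L) K (by positivity)
      rwa [hsL] at h1
    have a3 : √L / (400 * K) ≤ √L / 400 := by
      apply div_le_div_of_nonneg_left (Real.sqrt_nonneg _) (by norm_num)
      linarith
    have a4 : 0 ≤ √L := Real.sqrt_nonneg _
    linarith
  have hden0 : 0 < (P.card.choose j : ℝ) * η ^ j := lt_of_lt_of_le (Real.exp_pos _) hden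
  have hcard : (E.card : ℝ) ≤ lam * ((12 * (N : ℝ)) ^ k / ((P.card.choose j : ℝ) * η ^ j)) := by
    calc (E.card : ℝ) ≤ (((range lam).biUnion Z).card : ℝ) := by exact_mod_cast card_le_card hcov
      _ ≤ ∑ c ∈ range lam, ((Z c).card : ℝ) := by exact_mod_cast card_biUnion_le
      _ ≤ ∑ c ∈ range lam, (12 * (N : ℝ)) ^ k / ((P.card.choose j : ℝ) * η ^ j) := by
          apply sum_le_sum
          intro c hc
          rw [le_div_iff₀ hden0]
          exact hone c hc
      _ = _ := by rw [sum_const, card_range, nsmul_eq_mul]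
  refine hcard.trans ?_
  have b3 : (12 * (N : ℝ)) ^ k = Real.exp (k * Real.log 12 + k * L) := by
    rw [← mul_add, hL, ← Real.log_mul (by norm_num) hNR.ne', Real.exp_nat_mul,
      Real.exp_log (by positivity)]
  have b4 : (12 * (N : ℝ)) ^ k / ((P.card.choose j : ℝ) * η ^ j) ≤
      Real.exp (k * Real.log 12 + k * L - (L / (400 * K) - √L)) := by
    rw [b3, Real.exp_sub]
    apply div_le_div_of_nonneg_left (Real.exp_nonneg _) (Real.exp_pos _)
    exact (Real.exp_le_exp.2 hlow).trans hden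
  have b1 : (lam : ℝ) ≤ Real.exp (L ^ (19 / 20 : ℝ) / 2) := by
    rw [← Real.log_le_iff_le_exp hlamR]
    exact hllam
  calc (lam : ℝ) * ((12 * (N : ℝ)) ^ k / ((P.card.choose j : ℝ) * η ^ j)) ≤
      Real.exp (L ^ (19 / 20 : ℝ) / 2) *
        Real.exp (k * Real.log 12 + k * L - (L / (400 * K) - √L)) := by
        apply mul_le_mul b1 b4 (by positivity) (Real.exp_nonneg _)
    _ = Real.exp (L ^ (19 / 20 : ℝ) / 2 + (k * Real.log 12 + k * L - (L / (400 * K) - √L))) := by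
        rw [← Real.exp_add]
    _ ≤ Real.exp (L * ((k : ℝ) - 1 / (500 * K))) := by
        rw [Real.exp_le_exp]
        have hf := hp.fin
        have hk1 : L * ((k : ℝ) - 1 / (500 * K)) = k * L - 1 / (500 * K) * L := by ring
        have hk2 : (1 / (400 * K) - 1 / (500 * K)) * L = L / (400 * K) - 1 / (500 * K) * L := by ring
        rw [hk1]
        rw [hk2] at hf
        linarith
    _ = (N : ℝ) ^ ((k : ℝ) - 1 / (500 * K)) := by
        rw [Real.exp_mul, ← hNexp]

end Pool.Agent.W5h37.Cohn
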