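import Mathlib
import Pool.Agent.W5h37.Cohn.Even
import Pool.Agent.W5h37.Cohn.Local
import Pool.Agent.W5h37.Cohn.Sieve

/-!
Pairs `(a, b)` for which `(a ^ n - 1)(b ^ n - 1)` is a square for some `n`: a power saving.
-/

set_option autoImplicit false

namespace Pool.Agent.W5h37.Cohn

open Finset Filter Topology

theorem isSquare_zmod {a b n x t : ℕ} (ha : 1 ≤ a) (hb : 1 ≤ b)
    (h : (a ^ n - 1) * (b ^ n - 1) = x ^ 2) :
    IsSquare ((((a : ℕ) : ZMod t) ^ n - 1) * (((b : ℕ) : ZMod t) ^ n - 1)) := by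
  have h1 : ((((a ^ n - 1) * (b ^ n - 1) : ℕ)) : ZMod t) = ((x ^ 2 : ℕ) : ZMod t) := by rw [h]
  rw [Nat.cast_mul, Nat.cast_sub (Nat.one_le_pow _ _ ha), Nat.cast_sub (Nat.one_le_pow _ _ hb)] at h1
  push_cast at h1
  exact ⟨(x : ZMod t), by rw [h1]; ring⟩

/-- odd exponents -/
theorem odd_pairs : ∃ δ : ℝ, 0 < δ ∧ δ ≤ 1 / 500 ∧ ∃ N₀ : ℕ, ∀ N : ℕ, N₀ ≤ N →
    ∀ E : Finset (ℕ × ℕ), (∀ p ∈ E, (1 ≤ p.1 ∧ p.1 ≤ N) ∧ (1 ≤ p.2 ∧ p.2 ≤ N) ∧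
      ∃ n x : ℕ, Odd n ∧ (p.1 ^ n - 1) * (p.2 ^ n - 1) = x ^ 2) →
    (E.card : ℝ) ≤ (N : ℝ) ^ (2 - δ) := by
  classical
  obtain ⟨K, hK, hs⟩ := sieve
  have hKR : (1 : ℝ) ≤ K := by exact_mod_cast hK
  obtain ⟨N₀, hN₀⟩ := hs 2 (1 / 32) 4 1 (by norm_num) (by norm_num) (by norm_num)
  refine ⟨1 / (500 * K), by positivity, ?_, N₀, fun N hN E hE => ?_⟩
  · apply one_div_le_one_div_of_le (by norm_num)
    linarith
  set f : ℕ × ℕ → (Fin 2 → ℕ) := fun p => ![p.1, p.2] with hf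
  have hinj : Function.Injective f := by
    intro p q hpq
    have h0 := congrFun hpq 0
    have h1 := congrFun hpq 1
    simp only [hf, Matrix.cons_val_zero, Matrix.cons_val_one] at h0 h1
    exact Prod.ext h0 h1
  have h1 := hN₀ N hN Om2 (fun n t hn ht h16 h4 => by
      have h4' : t % 4 = 1 := h4
      exact card_Om2 hn ht h16 h4')
    (fun n c t hn hc ht hnc A hA => by
      rw [mem_Om2 ht.ne_zero] at hA ⊢
      rw [← pow_eq_of_modEq ht hn.pos hc.pos hnc, ← pow_eq_of_modEq ht hn.pos hc.pos hnc]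
      exact hA) (fun _ => 0) (E.image f) (by
      intro A hA
      rw [mem_image] at hA
      obtain ⟨p, hp, rfl⟩ := hA
      obtain ⟨g1, g2, n, x, hn, hx⟩ := hE p hp
      refine ⟨?_, n, hn, fun t ht _ _ => ?_⟩
      · intro i
        rw [mem_Ioc]
        fin_cases i
        · simp only [hf]; simp; omega
        · simp only [hf]; simp; omega
      · rw [mem_Om2 ht.ne_zero]
        simp only [hf, Matrix.cons_val_zero, Matrix.cons_val_one]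
        exact isSquare_zmod g1.1 g2.1 hx)
  rw [card_image_of_injective _ hinj] at h1
  push_cast at h1
  exact h1

/-- even exponents -/
theorem even_pairs : ∃ N₀ : ℕ, ∀ N : ℕ, N₀ ≤ N →
    ∀ E : Finset (ℕ × ℕ), (∀ p ∈ E, 2 ≤ p.1 ∧ p.1 < p.2 ∧ p.2 ≤ N ∧
      ∃ k x : ℕ, 1 ≤ k ∧ (p.1 ^ (2 * k) - 1) * (p.2 ^ (2 * k) - 1) = x ^ 2) →
    (E.card : ℝ) ≤ (N : ℝ) ^ (2 - 1 / 24 : ℝ) := by
  classical
  obtain ⟨N₁, hN₁⟩ := oddVal_count
  have h3 : ∀ᶠ N : ℕ in atTop, (3 : ℝ) ≤ (N : ℝ) ^ (1 / 24 : ℝ) :=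
    ((tendsto_rpow_atTop (by norm_num)).comp tendsto_natCast_atTop_atTop).eventually_ge_atTop _
  obtain ⟨N₂, hN₂⟩ := eventually_atTop.1 (h3.and (eventually_ge_atTop 1))
  refine ⟨max N₁ N₂, fun N hN E hE => ?_⟩
  rw [max_le_iff] at hN
  obtain ⟨g3, g5⟩ := hN₂ N hN.2
  have hNR : (0 : ℝ) < N := by exact_mod_cast g5
  have hN1 : (1 : ℝ) ≤ N := by exact_mod_cast g5
  set V := (Icc 1 N).filter (fun a => OddVal a) with hV
  have hVc : (V.card : ℝ) ≤ (N : ℝ) ^ (11 / 12 : ℝ) := by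
    apply hN₁ N hN.1
    intro a ha
    rw [hV, mem_filter, mem_Icc] at ha
    exact ⟨ha.1.2, ha.2⟩
  have hcov : E ⊆ ((Icc 1 N) ×ˢ V) ∪ ((V ×ˢ (Icc 1 N)) ∪ ((Icc 1 (Nat.sqrt N)) ×ˢ (Icc 1 N))) := by
    intro p hp
    obtain ⟨h1, h2, h4, k, x, hk, hx⟩ := hE p hp
    rw [mem_union, mem_union, mem_product, mem_product, mem_product, hV, mem_filter, mem_filter,
      mem_Icc, mem_Icc, mem_Icc]
    rcases even_pair h1 h2 hk hx with h | h | h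
    · left; exact ⟨⟨by omega, by omega⟩, ⟨⟨by omega, by omega⟩, h⟩⟩
    · right; left; exact ⟨⟨⟨by omega, by omega⟩, h⟩, ⟨by omega, by omega⟩⟩
    · right; right
      refine ⟨⟨by omega, ?_⟩, ⟨by omega, by omega⟩⟩
      rw [Nat.le_sqrt']
      omega
  have h5 : E.card ≤ N * V.card + (V.card * N + Nat.sqrt N * N) := by
    refine (card_le_card hcov).trans ((card_union_le _ _).trans ?_)
    apply add_le_add
    · rw [card_product, Nat.card_Icc]; simp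
    · refine (card_union_le _ _).trans ?_
      rw [card_product, card_product, Nat.card_Icc, Nat.card_Icc]; simp
  have h6 : (E.card : ℝ) ≤ N * V.card + (V.card * N + Nat.sqrt N * N) := by exact_mod_cast h5
  have h7 : (Nat.sqrt N : ℝ) ≤ (N : ℝ) ^ (11 / 12 : ℝ) := by
    have e1 : (Nat.sqrt N : ℝ) ≤ √N := by
      rw [Real.le_sqrt (by positivity) (by positivity)]
      exact_mod_cast Nat.sqrt_le' N
    refine e1.trans ?_
    rw [Real.sqrt_eq_rpow]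
    exact Real.rpow_le_rpow_of_exponent_le hN1 (by norm_num)
  calc (E.card : ℝ) ≤ N * V.card + (V.card * N + Nat.sqrt N * N) := h6
    _ ≤ N * (N : ℝ) ^ (11 / 12 : ℝ) + ((N : ℝ) ^ (11 / 12 : ℝ) * N + (N : ℝ) ^ (11 / 12 : ℝ) * N) := by
        gcongr
    _ = 3 * ((N : ℝ) ^ (1 : ℝ) * (N : ℝ) ^ (11 / 12 : ℝ)) := by rw [Real.rpow_one]; ring
    _ ≤ (N : ℝ) ^ (1 / 24 : ℝ) * ((N : ℝ) ^ (1 : ℝ) * (N : ℝ) ^ (11 / 12 : ℝ)) :=
        mul_le_mul_of_nonneg_right g3 (by positivity)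
    _ = (N : ℝ) ^ (2 - 1 / 24 : ℝ) := by
        rw [← Real.rpow_add hNR, ← Real.rpow_add hNR]
        norm_num

/-- all exponents -/
theorem all_pairs : ∃ δ : ℝ, 0 < δ ∧ ∃ N₀ : ℕ, ∀ N : ℕ, N₀ ≤ N →
    ∀ E : Finset (ℕ × ℕ), (∀ p ∈ E, 2 ≤ p.1 ∧ p.1 < p.2 ∧ p.2 ≤ N ∧
      ∃ n x : ℕ, 1 ≤ n ∧ (p.1 ^ n - 1) * (p.2 ^ n - 1) = x ^ 2) →
    (E.card : ℝ) ≤ (N : ℝ) ^ (2 - δ) := by
  classical
  obtain ⟨δ, hδ, hδ1, N₁, hN₁⟩ := odd_pairs
  obtain ⟨N₂, hN₂⟩ := even_pairs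
  have h3 : ∀ᶠ N : ℕ in atTop, (2 : ℝ) ≤ (N : ℝ) ^ (δ / 2) :=
    ((tendsto_rpow_atTop (by positivity)).comp tendsto_natCast_atTop_atTop).eventually_ge_atTop _
  obtain ⟨N₃, hN₃⟩ := eventually_atTop.1 (h3.and (eventually_ge_atTop 1))
  refine ⟨δ / 2, by positivity, max (max N₁ N₂) N₃, fun N hN E hE => ?_⟩
  rw [max_le_iff, max_le_iff] at hN
  obtain ⟨g3, g5⟩ := hN₃ N hN.2
  have hNR : (0 : ℝ) < N := by exact_mod_cast g5
  have hN1 : (1 : ℝ) ≤ N := by exact_mod_cast g5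
  set A := E.filter (fun p => ∃ n x : ℕ, Odd n ∧ (p.1 ^ n - 1) * (p.2 ^ n - 1) = x ^ 2) with hA
  set B := E.filter (fun p => ∃ k x : ℕ, 1 ≤ k ∧
    (p.1 ^ (2 * k) - 1) * (p.2 ^ (2 * k) - 1) = x ^ 2) with hB
  have h1 : (A.card : ℝ) ≤ (N : ℝ) ^ (2 - δ) := by
    apply hN₁ N hN.1.1
    intro p hp
    rw [hA, mem_filter] at hp
    obtain ⟨e1, e2, e3, -⟩ := hE p hp.1
    exact ⟨⟨by omega, by omega⟩, ⟨by omega, by omega⟩, hp.2⟩
  have h2 : (B.card : ℝ) ≤ (N : ℝ) ^ (2 - δ) := by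
    refine (hN₂ N hN.1.2 B ?_).trans ?_
    · intro p hp
      rw [hB, mem_filter] at hp
      obtain ⟨e1, e2, e3, -⟩ := hE p hp.1
      exact ⟨e1, e2, e3, hp.2⟩
    · apply Real.rpow_le_rpow_of_exponent_le hN1
      linarith
  have h4 : E ⊆ A ∪ B := by
    intro p hp
    obtain ⟨e1, e2, e3, n, x, hn, hx⟩ := hE p hp
    rw [mem_union, hA, hB, mem_filter, mem_filter]
    rcases Nat.even_or_odd' n with ⟨k, hk | hk⟩
    · right
      exact ⟨hp, k, x, by omega, by rw [← hk]; exact hx⟩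
    · left
      exact ⟨hp, n, x, ⟨k, hk⟩, hx⟩
  have h5 : (E.card : ℝ) ≤ A.card + B.card := by
    exact_mod_cast (card_le_card h4).trans (card_union_le _ _)
  calc (E.card : ℝ) ≤ A.card + B.card := h5
    _ ≤ 2 * (N : ℝ) ^ (2 - δ) := by linarith
    _ ≤ (N : ℝ) ^ (δ / 2) * (N : ℝ) ^ (2 - δ) := mul_le_mul_of_nonneg_right g3 (by positivity)
    _ = (N : ℝ) ^ (2 - δ / 2) := by
        rw [← Real.rpow_add hNR]
        congr 1; ring

end Pool.Agent.W5h37.Cohn
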