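import Mathlib

/-!
For `a` not of the form `(2 e ^ 2) ^ (2 ^ r)`, `r ≥ 2`: a residue class of primes `t ≡ 1 (mod 4)`
modulo which no odd power of `a` is `1`.
-/

set_option autoImplicit false

namespace Pool.Agent.W5h37.Cohn

open NumberTheorySymbols

/-- a class with `J(a | β) = -1` -/
theorem exists_class {a r : ℕ} (ha : 0 < a) (hsq : ¬ IsSquare a)
    (hr : r ≤ 1 ∨ ¬ ∃ e : ℕ, a = 2 * e ^ 2) :
    ∃ β : ℕ, β % 4 = 1 ∧ 2 ^ (r + 1) ∣ β - 1 ∧ J(a | β) = -1 := by
  obtain ⟨m, e, hme, hm⟩ := Nat.sq_mul_squarefree a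
  have he0 : 0 < e := by
    rcases Nat.eq_zero_or_pos e with h0 | h0
    · rw [h0] at hme; simp at hme; omega
    · exact h0
  have hm0 : 0 < m := by
    rcases Nat.eq_zero_or_pos m with h0 | h0
    · rw [h0] at hme; simp at hme; omega
    · exact h0
  have hm1 : m ≠ 1 := by
    intro h1
    apply hsq
    exact ⟨e, by rw [← hme, h1]; ring⟩
  have hea : e ≤ a := by
    rw [← hme]
    calc e = e * 1 := (mul_one e).symm
      _ ≤ e ^ 2 * m := Nat.mul_le_mul (Nat.le_self_pow (by norm_num) e) hm0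
  -- the square factor
  have key : ∀ β : ℕ, β.Prime → a < β → J(m | β) = -1 → J(a | β) = -1 := by
    intro β hβ haβ hJ
    have : NeZero β := ⟨hβ.ne_zero⟩
    have h1 : J((e : ℤ) | β) ≠ 0 := by
      rw [Ne, jacobiSym.eq_zero_iff_not_coprime, not_not]
      rw [Int.gcd_natCast_natCast]
      exact (Nat.coprime_comm.1 ((Nat.Prime.coprime_iff_not_dvd hβ).2 fun h =>
        absurd (Nat.le_of_dvd he0 h) (by omega)))
    have h2 : J((e : ℤ) | β) ^ 2 = 1 := by
      rcases jacobiSym.trichotomy (e : ℤ) β with h | h | h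
      · exact absurd h h1
      · rw [h]; norm_num
      · rw [h]; norm_num
    have h3 : (a : ℤ) = (e : ℤ) ^ 2 * m := by rw [← hme]; push_cast; ring
    rw [h3, jacobiSym.mul_left, jacobiSym.pow_left, h2, hJ, one_mul]
  by_cases hodd : ∃ l : ℕ, l.Prime ∧ l ≠ 2 ∧ l ∣ m
  · obtain ⟨l, hl, hl2, m', rfl⟩ := hodd
    have : Fact l.Prime := ⟨hl⟩
    have hm'0 : 0 < m' := Nat.pos_of_mul_pos_left hm0 |> fun h => by
      rcases Nat.eq_zero_or_pos m' with h0 | h0
      · rw [h0] at hm0; simp at hm0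
      · exact h0
    have hlm : Nat.Coprime l m' := Nat.coprime_of_squarefree_mul hm
    have hl2' : Nat.Coprime l (2 ^ (r + 3)) := by
      apply Nat.Coprime.pow_right
      rw [Nat.coprime_primes hl Nat.prime_two]
      exact hl2
    have hcop : Nat.Coprime l (2 ^ (r + 3) * m') := Nat.Coprime.mul_right hl2' hlm
    obtain ⟨u, hu⟩ := FiniteField.exists_nonsquare (F := ZMod l) (by
      rw [ZMod.ringChar_zmod_n]; exact hl2)
    -- the class
    obtain ⟨c, hc1, hc2⟩ := Nat.chineseRemainder hcop u.val 1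
    have hcM : Nat.Coprime c (l * (2 ^ (r + 3) * m')) := by
      apply Nat.Coprime.mul_right
      · rw [Nat.Coprime, hc1.gcd_eq]
        rw [← Nat.Coprime, Nat.coprime_comm, Nat.Prime.coprime_iff_not_dvd hl]
        intro h0
        apply hu
        have : u = 0 := by
          rw [← ZMod.natCast_zmod_val u, (ZMod.natCast_eq_zero_iff _ _).2 h0]
        rw [this]
        exact ⟨0, by simp⟩
      · rw [Nat.Coprime, hc2.gcd_eq]; exact Nat.gcd_one_left _
    have hM0 : l * (2 ^ (r + 3) * m') ≠ 0 := by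
      have := hl.pos
      positivity
    have : NeZero (l * (2 ^ (r + 3) * m')) := ⟨hM0⟩
    obtain ⟨β, hβa, hβ, hβc⟩ := Nat.forall_exists_prime_gt_and_modEq a hM0 hcM
    have hβ1 : β ≡ 1 [MOD 2 ^ (r + 3) * m'] :=
      (Nat.ModEq.of_dvd (dvd_mul_left _ _) hβc).trans hc2
    have hβl : β ≡ u.val [MOD l] := (Nat.ModEq.of_dvd (dvd_mul_right _ _) hβc).trans hc1
    have hβ2 : β ≡ 1 [MOD 2 ^ (r + 3)] := Nat.ModEq.of_dvd (dvd_mul_right _ _) hβ1
    have hβpos : 1 ≤ β := hβ.one_lt.le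
    have h4d : 4 ∣ 2 ^ (r + 3) := ⟨2 ^ (r + 1), by ring⟩
    have hβ4 : β % 4 = 1 := by
      have : β ≡ 1 [MOD 4] := Nat.ModEq.of_dvd h4d hβ2
      exact this
    refine ⟨β, hβ4, ?_, ?_⟩
    · have h1 := (Nat.modEq_iff_dvd' hβpos).1 hβ2.symm
      exact (pow_dvd_pow 2 (by omega)).trans h1
    · apply key β hβ hβa
      have h1 : J(((l * m' : ℕ) : ℤ) | β) = J((l : ℤ) | β) * J((m' : ℤ) | β) := by
        push_cast; rw [jacobiSym.mul_left]
      rw [h1]
      have h2 : J((m' : ℤ) | β) = 1 := by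
        rw [jacobiSym.mod_right _ (hβ.odd_of_ne_two (by rintro rfl; omega))]
        have h3 : β % (4 * (m' : ℤ).natAbs) = 1 := by
          rw [Int.natAbs_natCast]
          have : β ≡ 1 [MOD 4 * m'] := Nat.ModEq.of_dvd (mul_dvd_mul_right h4d m') hβ1
          have h4 : 1 % (4 * m') = 1 := Nat.mod_eq_of_lt (by omega)
          rw [Nat.ModEq, h4] at this
          exact this
        rw [h3, jacobiSym.one_right]
      have h3 : J((l : ℤ) | β) = -1 := by
        rw [← jacobiSym.quadratic_reciprocity_one_mod_four hβ4 (hl.odd_of_ne_two hl2)]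
        rw [← jacobiSym.legendreSym.to_jacobiSym, legendreSym.eq_neg_one_iff]
        have : ((β : ℤ) : ZMod l) = u := by
          rw [Int.cast_natCast, (ZMod.natCast_eq_natCast_iff _ _ _).2 hβl, ZMod.natCast_zmod_val]
        rw [this]
        exact hu
      rw [h2, h3]; norm_num
  · -- `m = 2`
    push Not at hodd
    have hm2 : m = 2 := by
      have h2 : 2 ∣ m := by
        obtain ⟨p, hp, hpm⟩ := Nat.exists_prime_and_dvd hm1
        by_cases h : p = 2
        · rw [← h]; exact hpm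
        · exact absurd hpm (hodd p hp h)
      obtain ⟨m', rfl⟩ := h2
      have hcop : Nat.Coprime 2 m' := Nat.coprime_of_squarefree_mul hm
      by_contra h
      have hm'1 : m' ≠ 1 := by
        intro h1; apply h; rw [h1]
      obtain ⟨p, hp, hpm⟩ := Nat.exists_prime_and_dvd hm'1
      have hp2 : p ≠ 2 := by
        rintro rfl
        have := Nat.dvd_gcd dvd_rfl hpm
        rw [hcop] at this
        omega
      exact hodd p hp hp2 (hpm.mul_left 2)
    have hr1 : r ≤ 1 := by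
      rcases hr with h | h
      · exact h
      · exact absurd ⟨e, by rw [← hme, hm2]; ring⟩ h
    obtain ⟨β, hβa, hβ, hβc⟩ := Nat.forall_exists_prime_gt_and_modEq a (q := 8) (a := 5)
      (by norm_num) (by norm_num)
    have hβ8 : β % 8 = 5 := hβc
    refine ⟨β, by omega, ?_, ?_⟩
    · have h1 : 4 ∣ β - 1 := by omega
      exact (pow_dvd_pow 2 (show r + 1 ≤ 2 by omega)).trans (by norm_num; exact h1)
    · apply key β hβ hβa
      rw [hm2]
      have h1 := jacobiSym.at_two (b := β) (by rw [Nat.odd_iff]; omega)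
      push_cast
      rw [h1, ZMod.χ₈_nat_eq_if_mod_eight]
      have h2 : β % 2 ≠ 0 := by omega
      rw [if_neg h2, if_neg (by omega)]

/-- `a` is a `2 ^ r`-th power of a non-square -/
theorem exists_root (a : ℕ) (ha : 2 ≤ a) : ∃ c r : ℕ, 2 ≤ c ∧ ¬ IsSquare c ∧ a = c ^ (2 ^ r) := by
  induction a using Nat.strong_induction_on with
  | _ a ih =>
    by_cases h : IsSquare a
    · obtain ⟨b, hb⟩ := h
      have hb2 : 2 ≤ b := by
        by_contra hneg
        have : b ≤ 1 := by omega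
        nlinarith
      obtain ⟨c, r, hc, hc2, hcr⟩ := ih b (by nlinarith) hb2
      refine ⟨c, r + 1, hc, hc2, ?_⟩
      rw [hb, hcr, ← pow_add]
      congr 1
      ring
    · exact ⟨a, 0, ha, h, by simp⟩

/-- a residue class of primes modulo which no odd power of `a` is `1` -/
theorem exists_ap {a : ℕ} (ha : 2 ≤ a) (hbad : ¬ ∃ e r : ℕ, 2 ≤ r ∧ a = (2 * e ^ 2) ^ (2 ^ r)) :
    ∃ M β : ℕ, 0 < M ∧ β.Coprime M ∧ ∀ t : ℕ, t.Prime → t ≡ β [MOD M] →
      t % 4 = 1 ∧ ∀ n : ℕ, Odd n → (a : ZMod t) ^ n ≠ 1 := by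
  obtain ⟨c, r, hc, hc2, hcr⟩ := exists_root a ha
  obtain ⟨β, hβ4, hβ2, hβJ⟩ := exists_class (a := c) (r := r) (by omega) hc2 (by
    by_cases h : r ≤ 1
    · exact Or.inl h
    · right
      rintro ⟨e, he⟩
      exact hbad ⟨e, r, by omega, by rw [hcr, he]⟩)
  have hβ0 : 0 < β := by omega
  have hβodd : Odd β := by rw [Nat.odd_iff]; omega
  refine ⟨2 ^ (r + 1) * (4 * c), β, by positivity, ?_, ?_⟩
  · have h2 : Nat.Coprime β 2 := Nat.coprime_two_right.2 hβodd
    apply Nat.Coprime.mul_right (h2.pow_right _)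
    apply Nat.Coprime.mul_right
    · exact Nat.Coprime.pow_right 2 h2
    · have : NeZero β := ⟨hβ0.ne'⟩
      have h3 : J(c | β) ≠ 0 := by rw [hβJ]; norm_num
      rw [Ne, jacobiSym.eq_zero_iff_not_coprime, not_not, Int.gcd_natCast_natCast] at h3
      exact Nat.coprime_comm.1 h3
  · intro t ht htβ
    have h4c : 4 ∣ 4 * c := dvd_mul_right _ _
    have e1 : t ≡ β [MOD 4 * c] := Nat.ModEq.of_dvd (dvd_mul_left _ _) htβ
    have e2 : t ≡ β [MOD 2 ^ (r + 1)] := Nat.ModEq.of_dvd (dvd_mul_right _ _) htβ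
    have e3 : t % 4 = 1 := by
      have : t ≡ β [MOD 4] := Nat.ModEq.of_dvd h4c e1
      rw [Nat.ModEq, hβ4] at this
      exact this
    refine ⟨e3, fun n hn h1 => ?_⟩
    have : Fact t.Prime := ⟨ht⟩
    have htodd : Odd t := by rw [Nat.odd_iff]; omega
    have e4 : J(c | t) = -1 := by
      rw [jacobiSym.mod_right _ htodd, ← hβJ, jacobiSym.mod_right (c : ℤ) hβodd,
        Int.natAbs_natCast]
      rw [Nat.ModEq] at e1
      rw [e1]
    rw [← jacobiSym.legendreSym.to_jacobiSym, legendreSym.eq_neg_one_iff, Int.cast_natCast] at e4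
    have hc0 : (c : ZMod t) ≠ 0 := by
      intro h0
      rw [h0] at e4
      exact e4 ⟨0, by simp⟩
    -- `2 ^ (r + 1) ∣ t - 1`
    have e5 : 2 ^ (r + 1) ∣ t - 1 := by
      have h5 : β ≡ 1 [MOD 2 ^ (r + 1)] := ((Nat.modEq_iff_dvd' hβ0).2 hβ2).symm
      exact (Nat.modEq_iff_dvd' ht.one_lt.le).1 (e2.trans h5).symm
    obtain ⟨w, hw⟩ := e5
    have e6 : t / 2 = 2 ^ r * w := by
      have : t - 1 = 2 * (2 ^ r * w) := by rw [hw, pow_succ]; ring
      omega
    have e7 : ((c : ZMod t) ^ n) ^ (t / 2) = 1 := by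
      have h5 : (a : ZMod t) ^ n = ((c : ZMod t) ^ n) ^ (2 ^ r) := by
        rw [hcr]; push_cast; rw [← pow_mul, ← pow_mul, mul_comm]
      rw [e6, pow_mul, ← h5, h1, one_pow]
    have e8 : IsSquare ((c : ZMod t) ^ n) := (ZMod.euler_criterion t (pow_ne_zero n hc0)).2 e7
    obtain ⟨m, hm⟩ := hn
    obtain ⟨y, hy⟩ := e8
    apply e4
    refine ⟨y * ((c : ZMod t) ^ m)⁻¹, ?_⟩
    have h5 : (c : ZMod t) ^ m ≠ 0 := pow_ne_zero m hc0
    field_simp
    rw [hm, pow_succ, pow_mul'] at hy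
    rw [sq, sq] at *
    linear_combination hy

end Pool.Agent.W5h37.Cohn
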