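import Mathlib
import Pool.Agent.W5h37.Cohn.Pairs
import Pool.Agent.W5h37.Cohn.Class

/-!
One fixed base `a`: the bases `b` for which `(a ^ n - 1)(b ^ n - 1)` is a square for some `n`.
-/

set_option autoImplicit false

namespace Pool.Agent.W5h37.Cohn

open Finset Filter Topology

/-- odd exponents -/
theorem odd_line : ∃ δ : ℝ, 0 < δ ∧ δ ≤ 1 / 500 ∧ ∀ a : ℕ, 2 ≤ a →
    (¬ ∃ e r : ℕ, 2 ≤ r ∧ a = (2 * e ^ 2) ^ (2 ^ r)) → ∃ N₀ : ℕ, ∀ N : ℕ, N₀ ≤ N →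
    ∀ E : Finset ℕ, (∀ b ∈ E, (1 ≤ b ∧ b ≤ N) ∧
      ∃ n x : ℕ, Odd n ∧ (a ^ n - 1) * (b ^ n - 1) = x ^ 2) →
    (E.card : ℝ) ≤ (N : ℝ) ^ (1 - δ) := by
  classical
  obtain ⟨K, hK, hs⟩ := sieve
  have hKR : (1 : ℝ) ≤ K := by exact_mod_cast hK
  refine ⟨1 / (500 * K), by positivity, ?_, fun a ha hbad => ?_⟩
  · apply one_div_le_one_div_of_le (by norm_num)
    linarith
  obtain ⟨M, β, hM, hβ, hap⟩ := exists_ap ha hbad
  obtain ⟨N₀, hN₀⟩ := hs 1 (1 / 32) M β (by norm_num) hM hβ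
  refine ⟨N₀, fun N hN E hE => ?_⟩
  set f : ℕ → (Fin 1 → ℕ) := fun b => ![b] with hf
  have hinj : Function.Injective f := by
    intro p q hpq
    have h0 := congrFun hpq 0
    simp only [hf, Matrix.cons_val_zero] at h0
    exact h0
  have h1 := hN₀ N hN (Om1 a) (fun n t hn ht h16 h4 => by
      obtain ⟨h5, h6⟩ := hap t ht h4
      exact card_Om1 hn ht h16 h5 (h6 n hn))
    (fun n c t hn hc ht hnc A hA => by
      rw [mem_Om1 ht.ne_zero] at hA ⊢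
      rw [← pow_eq_of_modEq ht hn.pos hc.pos hnc, ← pow_eq_of_modEq ht hn.pos hc.pos hnc]
      exact hA) (fun _ => 0) (E.image f) (by
      intro A hA
      rw [mem_image] at hA
      obtain ⟨b, hb, rfl⟩ := hA
      obtain ⟨g1, n, x, hn, hx⟩ := hE b hb
      refine ⟨?_, n, hn, fun t ht _ _ => ?_⟩
      · intro i
        rw [mem_Ioc]
        fin_cases i
        simp only [hf]; simp; omega
      · rw [mem_Om1 ht.ne_zero]
        simp only [hf, Matrix.cons_val_zero]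
        exact isSquare_zmod (by omega) g1.1 hx)
  rw [card_image_of_injective _ hinj] at h1
  push_cast at h1
  exact h1

/-- even exponents -/
theorem even_line {a : ℕ} (ha : 2 ≤ a) : ∃ N₀ : ℕ, ∀ N : ℕ, N₀ ≤ N →
    ∀ E : Finset ℕ, (∀ b ∈ E, 2 ≤ b ∧ b ≠ a ∧ b ≤ N ∧
      ∃ k x : ℕ, 1 ≤ k ∧ (a ^ (2 * k) - 1) * (b ^ (2 * k) - 1) = x ^ 2) →
    (E.card : ℝ) ≤ (N : ℝ) ^ (1 - 1 / 24 : ℝ) := by
  classical
  obtain ⟨N₁, hN₁⟩ := oddVal_count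
  obtain ⟨N₂, hN₂⟩ := count_ev (show (0 : ℝ) < 1 / 24 by norm_num)
  have h3 : ∀ᶠ N : ℕ in atTop, (2 * (a + 1) : ℝ) ≤ (N : ℝ) ^ (1 / 24 : ℝ) :=
    ((tendsto_rpow_atTop (by norm_num)).comp tendsto_natCast_atTop_atTop).eventually_ge_atTop _
  obtain ⟨N₃, hN₃⟩ := eventually_atTop.1 (h3.and (eventually_ge_atTop 1))
  refine ⟨max (max N₁ N₂) N₃, fun N hN E hE => ?_⟩
  rw [max_le_iff, max_le_iff] at hN
  obtain ⟨g3, g5⟩ := hN₃ N hN.2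
  have hNR : (0 : ℝ) < N := by exact_mod_cast g5
  have hN1 : (1 : ℝ) ≤ N := by exact_mod_cast g5
  set V := (Icc 1 N).filter (fun b => OddVal b) with hV
  set W := (Icc 1 N).filter (fun b => ∃ k i t v s : ℕ, Dat b k i t v s ∧ s ≤ a) with hW
  have hVc : (V.card : ℝ) ≤ (N : ℝ) ^ (11 / 12 : ℝ) := by
    apply hN₁ N hN.1.1
    intro b hb
    rw [hV, mem_filter, mem_Icc] at hb
    exact ⟨hb.1.2, hb.2⟩
  have hWc : (W.card : ℝ) ≤ (a + 1) * (N : ℝ) ^ (1 / 2 + 1 / 24 : ℝ) := by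
    apply hN₂ N hN.1.2
    intro b hb
    rw [hW, mem_filter, mem_Icc] at hb
    exact ⟨hb.1.2, hb.2⟩
  have hcov : E ⊆ (range a) ∪ (V ∪ W) := by
    intro b hb
    obtain ⟨h1, h2, h4, k, x, hk, hx⟩ := hE b hb
    rw [mem_union, mem_union, mem_range, hV, hW, mem_filter, mem_filter, mem_Icc]
    rcases Nat.lt_or_gt_of_ne h2 with h5 | h5
    · exact Or.inl h5
    · right
      rcases even_structure ha h5 hk hx with h | ⟨i, j, t, v, s, hi, hij, hio, hv, hs, D, D'⟩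
      · left; exact ⟨⟨by omega, h4⟩, h⟩
      · right
        exact ⟨⟨by omega, h4⟩, k, j, t, v, s, D', Nat.le_of_dvd (by omega) hs⟩
  have h5 : (E.card : ℝ) ≤ a + (V.card + W.card) := by
    have : E.card ≤ a + (V.card + W.card) := by
      refine (card_le_card hcov).trans ((card_union_le _ _).trans ?_)
      rw [card_range]
      exact Nat.add_le_add_left (card_union_le _ _) _
    exact_mod_cast this
  have h6 : (1 : ℝ) ≤ (N : ℝ) ^ (11 / 12 : ℝ) := Real.one_le_rpow hN1 (by norm_num)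
  have h7 : (N : ℝ) ^ (1 / 2 + 1 / 24 : ℝ) ≤ (N : ℝ) ^ (11 / 12 : ℝ) :=
    Real.rpow_le_rpow_of_exponent_le hN1 (by norm_num)
  have haR : (0 : ℝ) ≤ a := Nat.cast_nonneg a
  calc (E.card : ℝ) ≤ a + (V.card + W.card) := h5
    _ ≤ a * (N : ℝ) ^ (11 / 12 : ℝ) + ((N : ℝ) ^ (11 / 12 : ℝ) + (a + 1) * (N : ℝ) ^ (11 / 12 : ℝ)) := by
        have e1 : (a : ℝ) ≤ a * (N : ℝ) ^ (11 / 12 : ℝ) := le_mul_of_one_le_right haR h6
        have e2 : (a + 1 : ℝ) * (N : ℝ) ^ (1 / 2 + 1 / 24 : ℝ) ≤ (a + 1) * (N : ℝ) ^ (11 / 12 : ℝ) :=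
          mul_le_mul_of_nonneg_left h7 (by positivity)
        linarith
    _ = (2 * (a + 1)) * (N : ℝ) ^ (11 / 12 : ℝ) := by ring
    _ ≤ (N : ℝ) ^ (1 / 24 : ℝ) * (N : ℝ) ^ (11 / 12 : ℝ) :=
        mul_le_mul_of_nonneg_right g3 (by positivity)
    _ = (N : ℝ) ^ (1 - 1 / 24 : ℝ) := by
        rw [← Real.rpow_add hNR]
        norm_num

/-- all exponents -/
theorem all_line : ∃ δ : ℝ, 0 < δ ∧ ∀ a : ℕ, 2 ≤ a →
    (¬ ∃ e r : ℕ, 2 ≤ r ∧ a = (2 * e ^ 2) ^ (2 ^ r)) → ∃ N₀ : ℕ, ∀ N : ℕ, N₀ ≤ N →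
    ∀ E : Finset ℕ, (∀ b ∈ E, 2 ≤ b ∧ b ≠ a ∧ b ≤ N ∧
      ∃ n x : ℕ, 1 ≤ n ∧ (a ^ n - 1) * (b ^ n - 1) = x ^ 2) →
    (E.card : ℝ) ≤ (N : ℝ) ^ (1 - δ) := by
  classical
  obtain ⟨δ, hδ, hδ1, hodd⟩ := odd_line
  refine ⟨δ / 2, by positivity, fun a ha hbad => ?_⟩
  obtain ⟨N₁, hN₁⟩ := hodd a ha hbad
  obtain ⟨N₂, hN₂⟩ := even_line ha
  have h3 : ∀ᶠ N : ℕ in atTop, (2 : ℝ) ≤ (N : ℝ) ^ (δ / 2) :=
    ((tendsto_rpow_atTop (by positivity)).comp tendsto_natCast_atTop_atTop).eventually_ge_atTop _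
  obtain ⟨N₃, hN₃⟩ := eventually_atTop.1 (h3.and (eventually_ge_atTop 1))
  refine ⟨max (max N₁ N₂) N₃, fun N hN E hE => ?_⟩
  rw [max_le_iff, max_le_iff] at hN
  obtain ⟨g3, g5⟩ := hN₃ N hN.2
  have hNR : (0 : ℝ) < N := by exact_mod_cast g5
  have hN1 : (1 : ℝ) ≤ N := by exact_mod_cast g5
  set A := E.filter (fun b => ∃ n x : ℕ, Odd n ∧ (a ^ n - 1) * (b ^ n - 1) = x ^ 2) with hA
  set B := E.filter (fun b => ∃ k x : ℕ, 1 ≤ k ∧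
    (a ^ (2 * k) - 1) * (b ^ (2 * k) - 1) = x ^ 2) with hB
  have h1 : (A.card : ℝ) ≤ (N : ℝ) ^ (1 - δ) := by
    apply hN₁ N hN.1.1
    intro p hp
    rw [hA, mem_filter] at hp
    obtain ⟨e1, e2, e3, -⟩ := hE p hp.1
    exact ⟨⟨by omega, by omega⟩, hp.2⟩
  have h2 : (B.card : ℝ) ≤ (N : ℝ) ^ (1 - δ) := by
    refine (hN₂ N hN.1.2 B ?_).trans ?_
    · intro p hp
      rw [hB, mem_filter] at hp
      obtain ⟨e1, e2, e3, -⟩ := hE p hp.1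
      exact ⟨e1, e2, e3, hp.2⟩
    · apply Real.rpow_le_rpow_of_exponent_le hN1
      linarith
  have h4 : E ⊆ A ∪ B := by
    intro p hp
    obtain ⟨e1, e2, e3, n, x, hn, hx⟩ := hE p hp
    rw [mem_union, hA, hB, mem_filter, mem_filter]
    rcases Nat.even_or_odd' n with ⟨k, hk | hk⟩
    · right
      exact ⟨hp, k, x, by omega, by rw [← hk]; exact hx⟩
    · left
      exact ⟨hp, n, x, ⟨k, hk⟩, hx⟩
  have h5 : (E.card : ℝ) ≤ A.card + B.card := by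
    exact_mod_cast (card_le_card h4).trans (card_union_le _ _)
  calc (E.card : ℝ) ≤ A.card + B.card := h5
    _ ≤ 2 * (N : ℝ) ^ (1 - δ) := by linarith
    _ ≤ (N : ℝ) ^ (δ / 2) * (N : ℝ) ^ (1 - δ) := mul_le_mul_of_nonneg_right g3 (by positivity)
    _ = (N : ℝ) ^ (1 - δ / 2) := by
        rw [← Real.rpow_add hNR]
        congr 1; ring

end Pool.Agent.W5h37.Cohn
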